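import Pool.Agent.J6H85.CU.Main

/-!
# The global motivic zeta functions
-/

set_option autoImplicit false
set_option linter.unusedSectionVars false

namespace Pool.Agent.J6H85.CU

open MvPolynomial Pool.Agent.W428.MOT
open Pool.Agent.W375.MG (JetG Good zetaG good_one zetaW zetaW_eq)
open Pool.Agent.Y229.MS (addyz itr CE ce_good zs phiS zeta_iso t1 Witr constr_Witr constr_pull)
open Pool.Agent.N101.CB (stp Cub wyz_univ)

section
variable {k : Type} [Field k] [CharZero k] {n m : ℕ}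

theorem Witr_univ : ∀ j : ℕ, Witr (Set.univ : Set (Pt k (Fin n))) j = Set.univ
  | 0 => rfl
  | j + 1 => by
    show Pool.Agent.Y229.MS.Wyz (Witr (Set.univ : Set (Pt k (Fin n))) j) = Set.univ
    rw [Witr_univ j, wyz_univ]

/-- isomorphic polynomials have the same global zeta functions -/
theorem zetaW_iso {a b : ℕ} (hab : a = b)
    (ψ : MvPolynomial (Fin a) k ≃ₐ[k] MvPolynomial (Fin b) k) (g : MvPolynomial (Fin a) k) :
    zetaW (ψ g) Set.univ = zetaW g Set.univ := by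
  rw [zetaW_eq, zetaW_eq]
  have h := zeta_iso Pool.Agent.Z864.MS.three hab ψ g Constr.univ (ce_good (good_one (K := k)))
  have e : {w : Pt k (Fin b) | (fun i => aeval w (ψ (X i))) ∈ (Set.univ : Set (Pt k (Fin a)))} =
      Set.univ := by
    ext w
    simp
  rw [e] at h
  exact h

theorem Rc.glob [Algebra k ℂ] {f : MvPolynomial (Fin n) k} {F : MvPolynomial (Fin m) k} {κ : ℕ}
    (h : Rc f F κ) (hm : m = n + 2 * κ) (j : ℕ) :
    zetaW (itr f (κ + j)) Set.univ = zetaW (itr F j) Set.univ := by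
  obtain ⟨ψ, hψ, -⟩ := h.iso
  have e := extN_itr κ ψ f j
  rw [hψ] at e
  rw [← e]
  exact (zetaW_iso (by omega) _ _).symm

/-- **The relations for the global zeta functions.** -/
theorem hom_glob {R : Type} [CommRing R] (θ : MK k →+* R) (f : MvPolynomial (Fin n) k) :
    ∃ (c : R) (Z φ : ℕ → PowerSeries R), Hom (Lw θ) c Z φ ∧
      ∀ j, Z j = PowerSeries.map θ (zetaW (itr f j) Set.univ) := by
  obtain ⟨c, Z, φ, h1, h2⟩ := hom_all θ f Constr.univ (ce_good (good_one (K := k)))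
  refine ⟨c, Z, φ, h1, fun j => ?_⟩
  rw [h2 j, Witr_univ, zetaW_eq]

/-- **The descent for the global zeta functions**, products with `1 - 𝕃⁻¹ T`. -/
theorem glob_fst [Algebra k ℂ] {R : Type} [CommRing R] (θ : MK k →+* R)
    {f : MvPolynomial (Fin n) k} {F : MvPolynomial (Fin m) k} {κ : ℕ} (h : Rc f F κ)
    (hm : m = n + 2 * κ) {S1 S2 : Set (ℤ × ℤ)} (hS1 : ∀ p ∈ S1, 0 < p.2)
    (hS2 : ∀ p ∈ S2, 0 < p.2)
    (h1 : fst (Lw θ) * PowerSeries.map θ (zetaW F Set.univ) ∈ rat (Lw θ) S1)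
    (h2 : fst (Lw θ) * PowerSeries.map θ (zetaW (itr F 1) Set.univ) ∈ rat (Lw θ) S2) :
    fst (Lw θ) * PowerSeries.map θ (zetaW f Set.univ) ∈
      rat (Lw θ) (shn κ S1 ∪ shn (κ + 1) S2) := by
  obtain ⟨c, Z, φ, h3, h4⟩ := hom_glob θ f
  have g0 := h.glob hm 0
  have g1 := h.glob hm 1
  have e0 : zetaW (itr F 0) Set.univ = zetaW F Set.univ := rfl
  rw [e0] at g0
  rw [← g0] at h1
  rw [← g1] at h2
  exact descend_fst (Z' := fun j => PowerSeries.map θ (zetaW (itr f j) Set.univ)) h3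
    (hom_near _ h4) (h4 0) hS1 hS2 κ h1 h2

theorem glob_loc [Algebra k ℂ] {R : Type} [CommRing R] (θ : MK k →+* R)
    (hu : ∀ i : ℕ, 0 < i → IsUnit (((Lw θ : Rˣ) : R) ^ i - 1))
    {f : MvPolynomial (Fin n) k} {F : MvPolynomial (Fin m) k} {κ : ℕ} (h : Rc f F κ)
    (hm : m = n + 2 * κ)
    (Q : Polynomial ℂ → Prop) (Q' : ℕ → Polynomial ℂ → Prop) (hQ : ∀ j, Sh (κ + j) Q (Q' j))
    (hz : ∀ j : ℕ, j < 4 → PowerSeries.map θ (zetaW (itr F j) Set.univ) ∈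
      rat (Lw θ) (QF (Q' j))) :
    fst (Lw θ) * PowerSeries.map θ (zetaW f Set.univ) ∈ rat (Lw θ) (QR Q) := by
  obtain ⟨c, Z, φ, h3, h4⟩ := hom_glob θ f
  refine descend_loc hu (Z' := fun j => PowerSeries.map θ (zetaW (itr f j) Set.univ)) h3
    (hom_near _ h4) (h4 0) (QR Q) κ fun i hi => ?_
  refine ⟨QF (Q' i), fun p hp => hp.1, (hQ i).full, ?_⟩
  show PowerSeries.map θ (zetaW (itr f (κ + i)) Set.univ) ∈ _
  rw [h.glob hm i]
  exact hz i hi

/-- **The descent for the sets of eigenvalues.** -/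
theorem glob_weak [Algebra k ℂ] {R : Type} [CommRing R] (θ : MK k →+* R)
    {f : MvPolynomial (Fin n) k} (hf : f.totalDegree ≠ 0) {F : MvPolynomial (Fin m) k} {κ : ℕ}
    (h : Rc f F κ) (hm : m = n + 2 * κ)
    (hz : ∀ j : ℕ, j < 2 → PowerSeries.map θ (zetaW (itr F j) Set.univ) ∈
      rat (Lw θ) (QW (FE (itr F j)))) :
    PowerSeries.map θ (zetaW f Set.univ) ∈ rat (Lw θ) (QW (FE f)) := by
  have hm1 : ∀ b, FE f b → b.eval (-1) = 0 := fun b hb => fe_neg_one hf hb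
  have h1 := glob_fst θ h hm (fun p hp => hp.1) (fun p hp => hp.1)
    ((rat (Lw θ) _).mul_mem (fst_mem _ _) (hz 0 (by norm_num)))
    ((rat (Lw θ) _).mul_mem (fst_mem _ _) (hz 1 (by norm_num)))
  refine of_fst (rat_mono _ ?_ h1) (neg_one_weak hm1)
  exact Set.union_subset ((h.sh hf 0).weak hm1) ((h.sh hf 1).weak hm1)

end

/-- **The sign of the poles.** If the denominators `1 - u ^ a T ^ b` with `a < 0` suffice, and the ones with
`(a, b) ∈ G` suffice, then the ones with both properties suffice, for sets `G` which depend on `a / b`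
only. -/
theorem neg_part {R : Type} [CommRing R] {u : Rˣ}
    (hu : ∀ i : ℕ, 0 < i → IsUnit ((u : R) ^ i - 1)) {G : Set (ℤ × ℤ)} (hG : ∀ p ∈ G, 0 < p.2)
    (hG' : ∀ p ∈ G, ∀ q : ℤ × ℤ, 0 < q.2 → p.1 * q.2 = q.1 * p.2 → q ∈ G) {z : PowerSeries R}
    (h1 : z ∈ rat u G) (h2 : z ∈ rat u {p | p.1 < 0 ∧ 0 < p.2}) :
    z ∈ rat u {p | p.1 < 0 ∧ p ∈ G} := by
  refine mem_of_two u hu (T₁ := {p | 0 ≤ p.1 ∧ p ∈ G}) (T₂ := {p | p.1 < 0 ∧ 0 < p.2 ∧ p ∉ G})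
    (fun p hp => hG p hp.2) (fun p hp => hp.2.1) ?_ (rat_mono u ?_ h1) (rat_mono u ?_ h2)
  · rintro p ⟨hp, hpG⟩ q ⟨hq, hq', hqG⟩ he
    exact hqG (hG' p hpG q hq' he)
  · intro p hp
    rcases lt_or_ge p.1 0 with h | h
    · exact Or.inl ⟨h, hp⟩
    · exact Or.inr ⟨h, hp⟩
  · rintro p ⟨hp, hp'⟩
    by_cases h : p ∈ G
    · exact Or.inl ⟨hp, h⟩
    · exact Or.inr ⟨hp, hp', h⟩

theorem QW_ratio (Q : Polynomial ℂ → Prop) : ∀ p ∈ QW Q, ∀ q : ℤ × ℤ, 0 < q.2 →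
    p.1 * q.2 = q.1 * p.2 → q ∈ QW Q := by
  rintro p ⟨hp, hp'⟩ q hq he
  refine ⟨hq, fun b hb => ?_⟩
  have e : (q.1 : ℂ) / q.2 = (p.1 : ℂ) / p.2 := by
    have h1 : (p.2 : ℂ) ≠ 0 := by exact_mod_cast hp.ne'
    have h2 : (q.2 : ℂ) ≠ 0 := by exact_mod_cast hq.ne'
    rw [div_eq_div_iff h2 h1]
    exact_mod_cast he.symm
  rw [e]
  exact hp' b hb

end Pool.Agent.J6H85.CU
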