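import Pool.Agent.J6H85.CU.Rec
import Pool.Agent.N101.CB.Idl
import Pool.Agent.Y229.MS.Step

/-!
# The relations between the motivic zeta functions of `f` and `f + y z`, with the origins in `W` or in
`W × 0`, and for a condition on the leading coefficient
-/

set_option autoImplicit false

namespace Pool.Agent.J6H85.CU

open MvPolynomial Pool.Agent.W428.MOT
open Pool.Agent.W375.MG (JetG Good)
open Pool.Agent.Y229.MS (addyz Wyz CE Tl zs phiS psum rel1 rel2 psum_mul constr_Wyz phi_succ chi_pt
  ce_zero TaskONE TaskTWO itr Witr constr_Witr ce_good)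
open Pool.Agent.N101.CB (Wo constr_Wo chi_Tl)

section
variable {K : Type} [Field K] {n : ℕ} {R : Type} [CommRing R]

theorem coeff_geo (u : Rˣ) (N : ℕ) :
    PowerSeries.coeff N (geoR u (-1) 1) = ((u⁻¹ : Rˣ) : R) ^ N := by
  set Y : R := ((u⁻¹ : Rˣ) : R) with hY
  have h1 := fst_mul u
  unfold fst at h1
  rw [← hY] at h1
  have h2 : (1 - PowerSeries.C Y * PowerSeries.X) * PowerSeries.mk (fun N => Y ^ N) = 1 := by
    ext m
    rw [sub_mul, one_mul, map_sub, PowerSeries.coeff_mk, mul_assoc, PowerSeries.coeff_C_mul]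
    cases m with
    | zero => simp
    | succ m =>
      rw [PowerSeries.coeff_succ_X_mul, PowerSeries.coeff_mk, PowerSeries.coeff_one,
        if_neg (Nat.succ_ne_zero m), pow_succ]
      ring
  have h3 : geoR u (-1) 1 = PowerSeries.mk (fun N => Y ^ N) := by
    calc geoR u (-1) 1 = geoR u (-1) 1 * ((1 - PowerSeries.C Y * PowerSeries.X) *
          PowerSeries.mk (fun N => Y ^ N)) := by rw [h2, mul_one]
      _ = ((1 - PowerSeries.C Y * PowerSeries.X) * geoR u (-1) 1) *
          PowerSeries.mk (fun N => Y ^ N) := by ring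
      _ = _ := by rw [h1, one_mul]
  rw [h3, PowerSeries.coeff_mk]

theorem rescale_geo' (u : Rˣ) :
    PowerSeries.rescale (u : R) (geoR u (-1) 1) * (1 - PowerSeries.X) = 1 := by
  have h1 := congrArg (PowerSeries.rescale (u : R)) (fst_mul u)
  unfold fst at h1
  rw [map_mul, map_sub, map_one, map_mul, rescale_C', rescale_X', ← mul_assoc, ← map_mul,
    Units.inv_mul, map_one, one_mul, mul_comm] at h1
  exact h1

theorem chi_empty (M : Meas K R) {ι : Type} [Fintype ι] : M.χ ι (∅ : Set (Pt K ι)) = 0 := by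
  have := M.add (∅ : Set (Pt K ι)) ∅ Constr.empty Constr.empty (Set.disjoint_empty _)
  rw [Set.union_empty] at this
  exact left_eq_add.1 this

theorem chi_Wo (M : Meas K R) {W : Set (Pt K (Fin n))} (hW : Constr W) :
    M.χ _ (Wo W) = M.χ _ W := by
  refine M.iso _ _ (constr_Wo hW) hW (fun w i => w (Fin.castAdd 2 i))
    (fun z => Fin.append z fun _ : Fin 2 => 0) (regularOn_poly (fun i => IsPF.coord _) _)
    (regularOn_poly (fun i => ?_) _) ?_ ?_ ?_ ?_
  · refine Fin.addCases (fun i => ?_) (fun i => ?_) i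
    · simp only [Fin.append_left]
      exact IsPF.coord _
    · simp only [Fin.append_right]
      exact IsPF.zero
  · rintro w ⟨h, -, -⟩
    exact h
  · intro z hz
    refine ⟨?_, ?_, ?_⟩
    · simpa only [Fin.append_left] using hz
    · exact Fin.append_right _ _ _
    · exact Fin.append_right _ _ _
  · rintro w ⟨-, h1, h2⟩
    funext i
    refine Fin.addCases (fun i => ?_) (fun i => ?_) i
    · simp only [Fin.append_left]
    · simp only [Fin.append_right]
      fin_cases i
      · exact h1.symm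
      · exact h2.symm
  · intro z _
    funext i
    simp only [Fin.append_left]

theorem org_zero (f : MvPolynomial (Fin n) K) {N : ℕ} (z : Pt K (Fin n × Fin (N + 1))) :
    PowerSeries.coeff 0 (aeval (arc z) f) = aeval (fun i => z (i, 0)) f :=
  Pool.Agent.Z864.MS.coeff_zero_aeval _ _

theorem zero_Wo (f : MvPolynomial (Fin n) K) {W : Set (Pt K (Fin n))}
    (h0 : ∀ z ∈ W, aeval z f = 0) : ∀ z ∈ Wo W, aeval z (addyz f) = 0 := by
  rintro w ⟨h1, h2, h3⟩
  rw [addyz, map_add, map_mul, aeval_X, aeval_X, aeval_rename, h2, zero_mul, add_zero]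
  exact h0 _ h1

/-- no jets of level zero -/
theorem jet_empty (f : MvPolynomial (Fin n) K) {W : Set (Pt K (Fin n))}
    (h0 : ∀ z ∈ W, aeval z f = 0) {E : Set (AlgebraicClosure K)} (hE : Good E) :
    JetG f W E 0 = ∅ := by
  rw [Set.eq_empty_iff_forall_notMem]
  rintro z ⟨h1, -, h3⟩
  rw [org_zero, h0 _ h1] at h3
  exact hE.zero h3

theorem jet_zero (f : MvPolynomial (Fin n) K) {W : Set (Pt K (Fin n))}
    (h0 : ∀ z ∈ W, aeval z f = 0) : JetG f W {0} 0 = Tl f W 0 0 := by
  ext z
  constructor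
  · rintro ⟨h1, -, -⟩
    exact ⟨h1, fun j hj => absurd hj (Nat.not_lt_zero _)⟩
  · rintro ⟨h1, -⟩
    refine ⟨h1, fun j hj => absurd hj (Nat.not_lt_zero _), ?_⟩
    rw [org_zero, h0 _ h1]
    rfl

theorem pow_aux {L Y : R} (hL : L * Y = 1) (n N : ℕ) :
    L ^ (n * N) * L ^ N * Y ^ ((n + 2) * N) = Y ^ N := by
  have e3 : (n + 2) * N = (n * N + N) + N := by ring
  rw [e3, pow_add Y (n * N + N), ← pow_add L, ← mul_assoc, ← mul_pow, hL, one_pow, one_mul]

theorem one_zero (h1 : TaskONE) (M : Meas K R) (f : MvPolynomial (Fin n) K)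
    {W : Set (Pt K (Fin n))} (hW : Constr W) {E : Set (AlgebraicClosure K)} (hE : CE E) :
    M.χ _ (JetG (addyz f) (Wyz W) E 0) = M.χ _ (JetG f W E 0) * M.L +
      M.χ (Fin 1) {a | a 0 ∈ E} * (M.L - 1) * M.χ _ W := by
  have z1 := h1 K R M f W E hW hE 0
  have hs : ∑ i ∈ Finset.range (0 + 1), M.χ _ (Tl f W i 0) = M.χ _ W := by
    rw [Finset.sum_range_succ, Finset.sum_range_zero, chi_Tl M f hW 0, mul_zero, pow_zero]
    ring
  rw [hs] at z1
  rw [z1]
  ring

/-- **The local relation of the zeta functions.** -/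
theorem loc1 (h1 : TaskONE) (h2 : TaskTWO) (M : Meas K R) (u : Rˣ) (hu : M.L = (u : R))
    (f : MvPolynomial (Fin n) K) {W : Set (Pt K (Fin n))} (hW : Constr W)
    (h0 : ∀ z ∈ W, aeval z f = 0) {E : Set (AlgebraicClosure K)} (hE : Good E) :
    PowerSeries.rescale (u : R) (zs M ((u⁻¹ : Rˣ) : R) (addyz f) (Wo W) E) *
        (1 - PowerSeries.X) =
      PowerSeries.C (u : R) * zs M ((u⁻¹ : Rˣ) : R) f W E * (1 - PowerSeries.X) +
        PowerSeries.C (M.χ (Fin 1) {a | a 0 ∈ E} * ((u : R) - 1)) * phiS M ((u⁻¹ : Rˣ) : R) f W -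
        PowerSeries.C (M.χ (Fin 1) {a | a 0 ∈ E} * ((u : R) - 1) * M.χ _ W) *
          (1 + PowerSeries.X) := by
  set Y : R := ((u⁻¹ : Rˣ) : R) with hY
  have hL : M.L * Y = 1 := by rw [hu, hY, Units.mul_inv]
  set e : R := M.χ (Fin 1) {a | a 0 ∈ E} with he
  set w : R := M.χ _ W with hw
  have r1 := rel1 h1 h2 M Y hL f hW (ce_good hE)
  have hD : zs M Y (addyz f) (Wyz W) E = zs M Y (addyz f) (Wo W) E +
      PowerSeries.C (e * ((u : R) - 1) * w) * (2 * geoR u (-1) 1 - 1) := by
    ext N
    have e2 : (2 : PowerSeries R) = PowerSeries.C 2 := (map_ofNat _ _).symm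
    rw [map_add, PowerSeries.coeff_C_mul, map_sub, e2, PowerSeries.coeff_C_mul, coeff_geo, zs, zs,
      PowerSeries.coeff_mk, PowerSeries.coeff_mk, ← hY]
    cases N with
    | zero =>
      rw [one_zero h1 M f hW (ce_good hE), jet_empty f h0 hE, chi_empty,
        jet_empty (addyz f) (zero_Wo f h0) hE, chi_empty, hu, ← he, ← hw]
      simp only [mul_zero, pow_zero, mul_one, PowerSeries.coeff_zero_one, zero_add]
      ring
    | succ N =>
      rw [PowerSeries.coeff_one, if_neg (Nat.succ_ne_zero N),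
        Pool.Agent.N101.CB.loc K R M f W E hW (ce_good hE) h0 (N + 1) (Nat.le_add_left _ _), hu,
        ← he, ← hw]
      have e4 := pow_aux (L := (u : R)) (Y := Y) (by rw [← hu]; exact hL) n (N + 1)
      linear_combination (2 * e * w * ((u : R) - 1)) * e4
  have hD' : PowerSeries.rescale (u : R) (zs M Y (addyz f) (Wyz W) E) =
      PowerSeries.rescale (u : R) (zs M Y (addyz f) (Wo W) E) +
      PowerSeries.C (e * ((u : R) - 1) * w) *
        (2 * PowerSeries.rescale (u : R) (geoR u (-1) 1) - 1) := by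
    have e5 : PowerSeries.rescale (u : R) (2 : PowerSeries R) = 2 := map_ofNat _ _
    rw [hD, map_add, map_mul (PowerSeries.rescale (u : R)), rescale_C',
      map_sub (PowerSeries.rescale (u : R)), map_mul (PowerSeries.rescale (u : R)), e5, map_one]
  rw [hu, hD', ← he] at r1
  have hps := psum_mul (phiS M Y f W)
  have hg := rescale_geo' u
  linear_combination (1 - PowerSeries.X) * r1 +
    (PowerSeries.C (e * ((u : R) - 1))) * hps -
    2 * (PowerSeries.C (e * ((u : R) - 1) * w)) * hg

/-- **The local relation of the tails.** -/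
theorem loc2 (h1 : TaskONE) (h2 : TaskTWO) (M : Meas K R) (u : Rˣ) (hu : M.L = (u : R))
    (f : MvPolynomial (Fin n) K) {W : Set (Pt K (Fin n))} (hW : Constr W)
    (h0 : ∀ z ∈ W, aeval z f = 0) :
    PowerSeries.rescale (u : R) (phiS M ((u⁻¹ : Rˣ) : R) (addyz f) (Wo W)) *
        (1 - PowerSeries.X) =
      (PowerSeries.C (u : R) * PowerSeries.C (u : R) - PowerSeries.C (u : R) * PowerSeries.X) *
        phiS M ((u⁻¹ : Rˣ) : R) f W -
        PowerSeries.C (M.χ _ W) * (PowerSeries.C ((u : R) ^ 2 - 1) * (1 - PowerSeries.X) +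
          PowerSeries.C (2 * ((u : R) - 1) * (u : R)) * PowerSeries.X) := by
  set Y : R := ((u⁻¹ : Rˣ) : R) with hY
  have hL : M.L * Y = 1 := by rw [hu, hY, Units.mul_inv]
  set w : R := M.χ _ W with hw
  have r2 := rel2 h1 h2 M Y hL f hW
  have hD : phiS M Y (addyz f) (Wyz W) = phiS M Y (addyz f) (Wo W) +
      PowerSeries.C w * (PowerSeries.C ((u : R) ^ 2 - 1) +
        PowerSeries.C (2 * ((u : R) - 1)) * (PowerSeries.X * geoR u (-1) 1)) := by
    ext N
    rw [map_add, PowerSeries.coeff_C_mul, map_add, PowerSeries.coeff_C_mul, PowerSeries.coeff_C]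
    cases N with
    | zero =>
      have r3 := congrArg (PowerSeries.coeff 0) r2
      rw [PowerSeries.coeff_rescale, map_add, mul_assoc, PowerSeries.coeff_C_mul,
        PowerSeries.coeff_C_mul, PowerSeries.coeff_C_mul, PowerSeries.coeff_zero_X_mul, mul_zero,
        add_zero, pow_zero, one_mul] at r3
      rw [r3, PowerSeries.coeff_zero_X_mul, mul_zero, add_zero, if_pos rfl, phiS, phiS,
        PowerSeries.coeff_mk, PowerSeries.coeff_mk, chi_Tl M f hW 0,
        chi_Tl M (addyz f) (constr_Wo hW) 0, chi_Wo M hW, hu, ← hw]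
      simp only [mul_zero, pow_zero, mul_one]
      ring
    | succ N =>
      rw [if_neg (Nat.succ_ne_zero N), zero_add, PowerSeries.coeff_succ_X_mul, coeff_geo, phiS,
        phiS, PowerSeries.coeff_mk, PowerSeries.coeff_mk,
        phi_succ h2 M Y hL (addyz f) (Wyz W) (constr_Wyz hW) N,
        phi_succ h2 M Y hL (addyz f) (Wo W) (constr_Wo hW) N, ← hY]
      cases N with
      | zero =>
        rw [one_zero h1 M f hW ce_zero, chi_pt, jet_zero f h0, jet_zero (addyz f) (zero_Wo f h0),
          chi_Tl M f hW 0, chi_Tl M (addyz f) (constr_Wo hW) 0, chi_Wo M hW, hu, ← hw]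
        simp only [mul_zero, pow_zero, mul_one]
        ring
      | succ N =>
        rw [Pool.Agent.N101.CB.loc K R M f W {0} hW ce_zero h0 (N + 1) (Nat.le_add_left _ _),
          chi_pt, hu, ← hw]
        have e4 := pow_aux (L := (u : R)) (Y := Y) (by rw [← hu]; exact hL) n (N + 1)
        linear_combination (2 * w * ((u : R) - 1)) * e4
  have hD' : PowerSeries.rescale (u : R) (phiS M Y (addyz f) (Wyz W)) =
      PowerSeries.rescale (u : R) (phiS M Y (addyz f) (Wo W)) +
      PowerSeries.C w * (PowerSeries.C ((u : R) ^ 2 - 1) +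
        PowerSeries.C (2 * ((u : R) - 1)) * (PowerSeries.C (u : R) * PowerSeries.X *
          PowerSeries.rescale (u : R) (geoR u (-1) 1))) := by
    rw [hD, map_add, map_mul (PowerSeries.rescale (u : R)), rescale_C',
      map_add (PowerSeries.rescale (u : R)), map_mul (PowerSeries.rescale (u : R)), rescale_C',
      rescale_C', map_mul (PowerSeries.rescale (u : R)), rescale_X']
  rw [hu, hD'] at r2
  have hps := psum_mul (phiS M Y f W)
  have hg := rescale_geo' u
  have e6 : PowerSeries.C ((u : R) * ((u : R) - 1)) =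
      (PowerSeries.C (u : R) * (PowerSeries.C (u : R) - 1) : PowerSeries R) := by
    rw [map_mul, map_sub, map_one]
  have e7 : PowerSeries.C (2 * ((u : R) - 1) * (u : R)) =
      (PowerSeries.C (2 * ((u : R) - 1)) * PowerSeries.C (u : R) : PowerSeries R) := map_mul _ _ _
  rw [e6] at r2
  rw [e7]
  linear_combination (1 - PowerSeries.X) * r2 +
    (PowerSeries.C (u : R) * (PowerSeries.C (u : R) - 1) * PowerSeries.X) * hps -
    (PowerSeries.C w * PowerSeries.C (2 * ((u : R) - 1)) * PowerSeries.C (u : R) *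
      PowerSeries.X) * hg

end

end Pool.Agent.J6H85.CU
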