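import Pool.Agent.J6H85.CU.Pts

/-!
# Cubic polynomials suffice: the roots and the descent
-/

set_option autoImplicit false
set_option linter.unusedSectionVars false

namespace Pool.Agent.J6H85.CU

open MvPolynomial Pool.Agent.W428.MOT
open Pool.Agent.W375.MG (JetG Good zetaG good_one)
open Pool.Agent.Y229.MS (addyz itr CE ce_good zs phiS zeta_iso t1 Witr constr_Witr constr_pull)
open Pool.Agent.N101.CB (stp Cub)

/-! ### Finite sets of pairs -/

theorem rat_finite {R : Type} [CommRing R] (u : Rˣ) {S : Set (ℤ × ℤ)} {z : PowerSeries R}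
    (hz : z ∈ rat u S) : ∃ S₀ : Finset (ℤ × ℤ), (S₀ : Set (ℤ × ℤ)) ⊆ S ∧ z ∈ rat u S₀ := by
  classical
  unfold rat at hz
  refine Algebra.adjoin_induction (p := fun z _ =>
    ∃ S₀ : Finset (ℤ × ℤ), (S₀ : Set (ℤ × ℤ)) ⊆ S ∧ z ∈ rat u S₀) ?_ ?_ ?_ ?_ hz
  · rintro x (hx | ⟨p, hp, rfl⟩)
    · refine ⟨∅, by simp, ?_⟩
      rw [Set.mem_singleton_iff] at hx
      rw [hx]
      exact X_mem _ _
    · refine ⟨{p}, by simpa using hp, geoR_mem u (Finset.mem_coe.2 (Finset.mem_singleton_self p))⟩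
  · intro r
    exact ⟨∅, by simp, (rat u _).algebraMap_mem r⟩
  · rintro x y _ _ ⟨S₁, h1, h2⟩ ⟨S₂, h3, h4⟩
    refine ⟨S₁ ∪ S₂, ?_, ?_⟩
    · rw [Finset.coe_union]
      exact Set.union_subset h1 h3
    · rw [Finset.coe_union]
      exact (rat u _).add_mem (rat_mono u Set.subset_union_left h2)
        (rat_mono u Set.subset_union_right h4)
  · rintro x y _ _ ⟨S₁, h1, h2⟩ ⟨S₂, h3, h4⟩
    refine ⟨S₁ ∪ S₂, ?_, ?_⟩
    · rw [Finset.coe_union]
      exact Set.union_subset h1 h3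
    · rw [Finset.coe_union]
      exact (rat u _).mul_mem (rat_mono u Set.subset_union_left h2)
        (rat_mono u Set.subset_union_right h4)

/-! ### Sets of roots -/

/-- the pairs `(a, b)`, `b > 0`, such that `a / b` is a root of every `b(s)` with the property `Q` -/
def QF (Q : Polynomial ℂ → Prop) : Set (ℤ × ℤ) :=
  {p | 0 < p.2 ∧ ∀ b : Polynomial ℂ, Q b → b.eval ((p.1 : ℂ) / p.2) = 0}

/-- the pairs `(a, b)`, `b > 0`, such that `a / b` is a root of every `c(s)` for which `(s + 1) c(s)`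
has the property `Q` -/
def QR (Q : Polynomial ℂ → Prop) : Set (ℤ × ℤ) :=
  {p | 0 < p.2 ∧ ∀ c : Polynomial ℂ, Q ((Polynomial.X + 1) * c) →
    c.eval ((p.1 : ℂ) / p.2) = 0}

/-- the pairs `(a, b)`, `b > 0`, such that every `b(s)` with the property `Q` has a root in
`a / b + ℤ` -/
def QW (Q : Polynomial ℂ → Prop) : Set (ℤ × ℤ) :=
  {p | 0 < p.2 ∧ ∀ b : Polynomial ℂ, Q b → ∃ m : ℤ, b.eval ((p.1 : ℂ) / p.2 + m) = 0}

/-- `Q'` contains the shifts of `Q` by `N` -/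
def Sh (N : ℕ) (Q Q' : Polynomial ℂ → Prop) : Prop :=
  ∀ c : Polynomial ℂ, Q ((Polynomial.X + 1) * c) →
    Q' ((Polynomial.X + 1) * c.comp (Polynomial.X + Polynomial.C (N : ℂ)))

theorem div_shift (p : ℤ × ℤ) (hp : 0 < p.2) (κ : ℕ) :
    ((p.1 + (κ : ℤ) * p.2 : ℤ) : ℂ) / p.2 = (p.1 : ℂ) / p.2 + κ := by
  have h : (p.2 : ℂ) ≠ 0 := by exact_mod_cast hp.ne'
  push_cast
  rw [add_div, mul_div_assoc, div_self h, mul_one]

theorem eval_shift (c : Polynomial ℂ) (N : ℕ) (s : ℂ) :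
    (c.comp (Polynomial.X + Polynomial.C (N : ℂ))).eval s = c.eval (s + (N : ℂ)) := by
  rw [Polynomial.eval_comp, Polynomial.eval_add, Polynomial.eval_X, Polynomial.eval_C]

theorem Sh.trans {Q Q' Q'' : Polynomial ℂ → Prop} {κ j : ℕ} (h : Sh κ Q Q') (h' : Sh j Q' Q'') :
    Sh (κ + j) Q Q'' := by
  intro c hc
  have h1 := h' _ (h c hc)
  have e : (c.comp (Polynomial.X + Polynomial.C (κ : ℂ))).comp
      (Polynomial.X + Polynomial.C (j : ℂ)) =
      c.comp (Polynomial.X + Polynomial.C ((κ + j : ℕ) : ℂ)) := by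
    rw [Polynomial.comp_assoc, Polynomial.add_comp, Polynomial.X_comp, Polynomial.C_comp]
    push_cast
    rw [map_add]
    congr 1
    ring
  rw [e] at h1
  exact h1

theorem Sh.red {Q Q' : Polynomial ℂ → Prop} {N : ℕ} (h : Sh N Q Q') : shn N (QR Q') ⊆ QR Q := by
  rintro _ ⟨q, hq, rfl⟩
  refine ⟨hq.1, fun c hc => ?_⟩
  have h2 := hq.2 _ (h c hc)
  rw [eval_shift] at h2
  show c.eval (((q.1 + (N : ℤ) * q.2 : ℤ) : ℂ) / q.2) = 0
  rw [div_shift q hq.1]
  exact h2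

theorem Sh.full {Q Q' : Polynomial ℂ → Prop} {N : ℕ} (h : Sh N Q Q') :
    shn N (QF Q') ⊆ QR Q ∪ ext N := by
  rintro _ ⟨q, hq, rfl⟩
  by_cases hm : q.1 = -q.2
  · right
    refine ⟨hq.1, ?_⟩
    show q.1 + (N : ℤ) * q.2 = ((N : ℤ) - 1) * q.2
    rw [hm]
    ring
  · left
    refine ⟨hq.1, fun c hc => ?_⟩
    have h2 := hq.2 _ (h c hc)
    rw [Polynomial.eval_mul, eval_shift] at h2
    show c.eval (((q.1 + (N : ℤ) * q.2 : ℤ) : ℂ) / q.2) = 0
    rw [div_shift q hq.1]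
    rcases mul_eq_zero.1 h2 with h3 | h3
    · exfalso
      apply hm
      have hq0 : (q.2 : ℂ) ≠ 0 := by exact_mod_cast hq.1.ne'
      rw [Polynomial.eval_add, Polynomial.eval_X, Polynomial.eval_one] at h3
      have h4 : (q.1 : ℂ) + q.2 = 0 := by
        have h5 : ((q.1 : ℂ) / q.2 + 1) * q.2 = 0 := by rw [h3, zero_mul]
        rw [add_mul, div_mul_cancel₀ _ hq0, one_mul] at h5
        exact h5
      have h6 : q.1 + q.2 = 0 := by exact_mod_cast h4
      omega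
    · exact h3

theorem exists_c {b : Polynomial ℂ} (h5 : b.eval (-1) = 0) :
    ∃ c : Polynomial ℂ, b = (Polynomial.X + 1) * c := by
  obtain ⟨c, hc⟩ : (Polynomial.X - Polynomial.C (-1) : Polynomial ℂ) ∣ b :=
    Polynomial.dvd_iff_isRoot.2 h5
  refine ⟨c, ?_⟩
  rw [hc, map_neg, map_one, sub_neg_eq_add]

theorem QR_sub {Q : Polynomial ℂ → Prop} (hQ : ∀ b, Q b → b.eval (-1) = 0) : QR Q ⊆ QF Q := by
  rintro p ⟨h1, h2⟩
  refine ⟨h1, fun b hb => ?_⟩
  obtain ⟨c, rfl⟩ := exists_c (hQ b hb)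
  rw [Polynomial.eval_mul, h2 c hb, mul_zero]

theorem neg_one_mem {Q : Polynomial ℂ → Prop} (hQ : ∀ b, Q b → b.eval (-1) = 0) :
    ((-1, 1) : ℤ × ℤ) ∈ QF Q := by
  refine ⟨one_pos, fun b hb => ?_⟩
  have h6 : (((-1 : ℤ) : ℂ) / ((1 : ℤ) : ℂ)) = -1 := by norm_num
  simp only [h6]
  exact hQ b hb

theorem of_fst_f {R : Type} [CommRing R] {u : Rˣ} {Q : Polynomial ℂ → Prop}
    (hQ : ∀ b, Q b → b.eval (-1) = 0) {z : PowerSeries R} (h : fst u * z ∈ rat u (QR Q)) :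
    z ∈ rat u (QF Q) :=
  of_fst (rat_mono u (QR_sub hQ) h) (neg_one_mem hQ)

theorem Sh.weak {Q Q' : Polynomial ℂ → Prop} {N : ℕ} (h : Sh N Q Q')
    (hQ : ∀ b, Q b → b.eval (-1) = 0) : shn N (QW Q') ⊆ QW Q := by
  rintro _ ⟨q, hq, rfl⟩
  refine ⟨hq.1, fun b hb => ?_⟩
  obtain ⟨c, rfl⟩ := exists_c (hQ b hb)
  obtain ⟨l, hl⟩ := hq.2 _ (h c hb)
  rw [Polynomial.eval_mul, eval_shift] at hl
  show ∃ m : ℤ, ((Polynomial.X + 1) * c).eval
    (((q.1 + (N : ℤ) * q.2 : ℤ) : ℂ) / q.2 + m) = 0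
  rw [div_shift q hq.1]
  rcases mul_eq_zero.1 hl with h3 | h3
  · refine ⟨l - (N : ℤ), ?_⟩
    rw [Polynomial.eval_mul]
    have e : (q.1 : ℂ) / q.2 + (N : ℂ) + ((l - (N : ℤ) : ℤ) : ℂ) =
        (q.1 : ℂ) / q.2 + l := by
      push_cast
      ring
    rw [e, h3, zero_mul]
  · refine ⟨l, ?_⟩
    rw [Polynomial.eval_mul]
    have e : (q.1 : ℂ) / q.2 + (N : ℂ) + (l : ℂ) =
        (q.1 : ℂ) / q.2 + l + (N : ℂ) := by ring
    rw [e, h3, mul_zero]

theorem neg_one_weak {Q : Polynomial ℂ → Prop} (hQ : ∀ b, Q b → b.eval (-1) = 0) :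
    ((-1, 1) : ℤ × ℤ) ∈ QW Q :=
  ⟨one_pos, fun b hb => ⟨0, by
    rw [Int.cast_zero, add_zero]
    exact (neg_one_mem hQ).2 b hb⟩⟩

section
variable {k : Type} [Field k] [Algebra k ℂ] {n m : ℕ}

theorem Rc.sh {f : MvPolynomial (Fin n) k} {F : MvPolynomial (Fin m) k} {κ : ℕ}
    (h : Rc f F κ) (hf : f.totalDegree ≠ 0) (j : ℕ) : Sh (κ + j) (FE f) (FE (itr F j)) :=
  Sh.trans (fun c hc => h.fe hf c hc) fun _ hc => fe_itr (h.deg hf) hc j

theorem Rc.shl {f : MvPolynomial (Fin n) k} {F : MvPolynomial (Fin m) k} {κ : ℕ}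
    (h : Rc f F κ) (hf : f.totalDegree ≠ 0) (hf0 : constantCoeff f = 0) (j : ℕ) :
    Sh (κ + j) (LFE f) (LFE (itr F j)) :=
  Sh.trans (fun c hc => h.lfe hf hf0 c hc) fun _ hc => lfe_itr (h.deg hf) (h.const hf0) hc j

/-! ### The points -/

variable {K : Type} [Field K] [Algebra k K]

theorem charK (k K : Type) [Field k] [Algebra k ℂ] [Field K] [Algebra k K] : CharZero K := by
  have hkc : CharZero k := RingHom.charZero (algebraMap k ℂ)
  exact charZero_of_injective_algebraMap (algebraMap k K).injective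

theorem pz_zero (j : ℕ) : pz (0 : Fin n → K) j = 0 := by
  funext i
  unfold pz
  split_ifs <;> rfl

theorem Rc.pts {f : MvPolynomial (Fin n) k} {F : MvPolynomial (Fin m) k} {κ : ℕ}
    (h : Rc f F κ) (hm : m = n + 2 * κ) (x : Fin n → K)
    (hx : aeval x (map (algebraMap k K) f) = 0) :
    ∃ y : Fin m → K, aeval y (map (algebraMap k K) F) = 0 ∧ (x = 0 → y = 0) ∧
      ∀ j : ℕ, zeta (itr (map (algebraMap k K) f) (κ + j)) (pz x (κ + j)) =
        zeta (map (algebraMap k K) (itr F j)) (pz y j) := by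
  have hK : CharZero K := charK k K
  obtain ⟨ψ0, hψ0, hψ1⟩ := h.iso
  obtain ⟨ψ, hψ⟩ := Pool.Agent.Y405.MS.bc k K ψ0
  have e1 : ψ (itr (map (algebraMap k K) f) κ) = map (algebraMap k K) F := by
    rw [← map_itr, hψ, hψ0]
  refine ⟨tp ψ (pz x κ), ?_, ?_, fun j => ?_⟩
  · rw [← e1, aeval_tp, AlgEquiv.symm_apply_apply, aeval_pz, hx]
  · rintro rfl
    funext i
    have h2 : ψ.symm (X i) = map (algebraMap k K) (ψ0.symm (X i)) := by
      rw [AlgEquiv.symm_apply_eq, hψ, AlgEquiv.apply_symm_apply, map_X]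
    have h3 : constantCoeff (ψ0.symm (X i)) = 0 := by
      rw [← hψ1, AlgEquiv.apply_symm_apply, constantCoeff_X]
    show aeval (pz (0 : Fin n → K) κ) (ψ.symm (X i)) = 0
    rw [pz_zero, h2]
    have h4 := aeval_zero (R := K) (S₁ := K) (map (algebraMap k K) (ψ0.symm (X i)))
    rw [constantCoeff_map, h3, map_zero, map_zero] at h4
    exact h4
  · rw [map_itr, ← e1, ← extN_itr, ← tp_extN]
    refine (zeta_tp (by omega) _ _ _ ?_).symm
    rw [aeval_pz, hx]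

/-- **The descent for points**, over a ring in which the `𝕃 ^ i - 1` are units. -/
theorem pts_loc {R : Type} [CommRing R] (θ : MK K →+* R)
    (hu : ∀ i : ℕ, 0 < i → IsUnit (((Lw θ : Rˣ) : R) ^ i - 1))
    {f : MvPolynomial (Fin n) k} {F : MvPolynomial (Fin m) k} {κ : ℕ}
    (Q : Polynomial ℂ → Prop) (Q' : ℕ → Polynomial ℂ → Prop) (h : ∀ j, Sh (κ + j) Q (Q' j))
    (x : Fin n → K) (hx : aeval x (map (algebraMap k K) f) = 0) (y : Fin m → K)
    (hy : ∀ j : ℕ, zeta (itr (map (algebraMap k K) f) (κ + j)) (pz x (κ + j)) =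
        zeta (map (algebraMap k K) (itr F j)) (pz y j))
    (hz : ∀ j : ℕ, j < 4 → PowerSeries.map θ (zeta (map (algebraMap k K) (itr F j)) (pz y j)) ∈
      rat (Lw θ) (QF (Q' j))) :
    fst (Lw θ) * PowerSeries.map θ (zeta (map (algebraMap k K) f) x) ∈ rat (Lw θ) (QR Q) := by
  have hK : CharZero K := charK k K
  obtain ⟨c, Z, φ, h1, h2, h3⟩ := hom_pt θ (map (algebraMap k K) f) x hx
  have h3' : Z 0 = PowerSeries.map θ (zeta (itr (map (algebraMap k K) f) 0) (pz x 0)) := by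
    rw [h3, pz_nil]
    rfl
  have h6 : fst (Lw θ) * PowerSeries.map θ (zeta (itr (map (algebraMap k K) f) 0) (pz x 0)) ∈
      rat (Lw θ) (QR Q) := by
    refine descend_loc hu (Z' := fun j => PowerSeries.map θ
      (zeta (itr (map (algebraMap k K) f) j) (pz x j))) h1 h2 h3' (QR Q) κ fun i hi => ?_
    refine ⟨QF (Q' i), fun p hp => hp.1, (h i).full, ?_⟩
    show PowerSeries.map θ (zeta (itr (map (algebraMap k K) f) (κ + i)) (pz x (κ + i))) ∈ _
    rw [hy i]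
    exact hz i hi
  rw [pz_nil] at h6
  exact h6

/-- **The descent for points**, over any ring. -/
theorem pts_fst {R : Type} [CommRing R] (θ : MK K →+* R)
    {f : MvPolynomial (Fin n) k} {F : MvPolynomial (Fin m) k} {κ : ℕ}
    (Q : Polynomial ℂ → Prop) (Q' : ℕ → Polynomial ℂ → Prop) (h : ∀ j, Sh (κ + j) Q (Q' j))
    (x : Fin n → K) (hx : aeval x (map (algebraMap k K) f) = 0) (y : Fin m → K)
    (hy : ∀ j : ℕ, zeta (itr (map (algebraMap k K) f) (κ + j)) (pz x (κ + j)) =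
        zeta (map (algebraMap k K) (itr F j)) (pz y j))
    (hz : ∀ j : ℕ, j < 2 → fst (Lw θ) *
      PowerSeries.map θ (zeta (map (algebraMap k K) (itr F j)) (pz y j)) ∈
      rat (Lw θ) (QR (Q' j))) :
    fst (Lw θ) * PowerSeries.map θ (zeta (map (algebraMap k K) f) x) ∈ rat (Lw θ) (QR Q) := by
  have hK : CharZero K := charK k K
  obtain ⟨c, Z, φ, h1, h2, h3⟩ := hom_pt θ (map (algebraMap k K) f) x hx
  have h3' : Z 0 = PowerSeries.map θ (zeta (itr (map (algebraMap k K) f) 0) (pz x 0)) := by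
    rw [h3, pz_nil]
    rfl
  have z0 := hz 0 (by norm_num)
  have z1 := hz 1 (by norm_num)
  rw [← hy 0] at z0
  rw [← hy 1] at z1
  have h4 : fst (Lw θ) * PowerSeries.map θ (zeta (itr (map (algebraMap k K) f) 0) (pz x 0)) ∈
      rat (Lw θ) (shn κ (QR (Q' 0)) ∪ shn (κ + 1) (QR (Q' 1))) :=
    descend_fst (Z' := fun j => PowerSeries.map θ
      (zeta (itr (map (algebraMap k K) f) j) (pz x j))) h1 h2 h3' (fun p hp => hp.1)
      (fun p hp => hp.1) κ z0 z1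
  rw [pz_nil] at h4
  refine rat_mono _ ?_ h4
  exact Set.union_subset (h 0).red (h 1).red

/-! ### All origins -/

theorem hom_near {R : Type} [CommRing R] (u : Rˣ) {Z Z' : ℕ → PowerSeries R}
    (h : ∀ j, Z j = Z' j) : Near u Z Z' := fun j => ⟨0, by
  rw [h j, sub_self, mul_zero, Polynomial.coe_zero]⟩

/-- the origins for the cubic -/
def Wt {κ : ℕ} (ψ : MvPolynomial (Fin (n + 2 * κ)) K ≃ₐ[K] MvPolynomial (Fin m) K)
    (W : Set (Pt K (Fin n))) (j : ℕ) : Set (Pt K (Fin (m + 2 * j))) :=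
  {w | (fun i => aeval w (extN κ ψ j (X i))) ∈ Witr W (κ + j)}

end

end Pool.Agent.J6H85.CU
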