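import Pool.Agent.J6H85.CU.Seq
import Pool.Agent.N101.CB.Main
import Pool.Agent.Y229.MS.Fin

/-!
# Functional equations and automorphisms for the cubic of a polynomial
-/

set_option autoImplicit false

namespace Pool.Agent.J6H85.CU

open MvPolynomial Pool.Agent.W428.MOT
open Pool.Agent.W375.MG (JetG Good zetaG)
open Pool.Agent.Y229.MS (addyz itr TaskEXT CE)
open Pool.Agent.N101.CB (stp Cub psiE psiE_addyz chain stp_deg bg)
open Pool.Agent.H628R4.TP (IsBFunction)

section
variable {k : Type} [Field k] {n : ℕ}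

theorem stp_zero {K : Type} [Field K] (f : MvPolynomial (Fin n) K) : stp f 0 0 = addyz f := by
  unfold stp addyz
  rw [map_zero, add_zero, sub_zero]

theorem map_stp {K : Type} [Field K] (g : k →+* K) (f u v : MvPolynomial (Fin n) k) :
    map g (stp f u v) = stp (map g f) (map g u) (map g v) := by
  unfold stp
  simp only [map_add, map_mul, map_sub, map_X, map_rename]

theorem map_addyz {K : Type} [Field K] (g : k →+* K) (f : MvPolynomial (Fin n) k) :
    map g (addyz f) = addyz (map g f) := by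
  unfold addyz
  simp only [map_add, map_mul, map_X, map_rename]

theorem map_itr {K : Type} [Field K] (g : k →+* K) (f : MvPolynomial (Fin n) k) :
    ∀ j : ℕ, map g (itr f j) = itr (map g f) j
  | 0 => rfl
  | j + 1 => (map_addyz g (itr f j)).trans (congrArg addyz (map_itr g f j))

theorem map_deg [Algebra k ℂ] {f : MvPolynomial (Fin n) k} (hf : f.totalDegree ≠ 0) :
    (map (algebraMap k ℂ) f).totalDegree ≠ 0 := by
  rw [totalDegree, support_map_of_injective _ (algebraMap k ℂ).injective]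
  exact hf

/-- The functional equations of `f` over `ℂ`. -/
def FE [Algebra k ℂ] (f : MvPolynomial (Fin n) k) (b : Polynomial ℂ) : Prop :=
  IsBFunction (map (algebraMap k ℂ) f) b

theorem fe_stp [Algebra k ℂ] {f : MvPolynomial (Fin n) k} (hf : f.totalDegree ≠ 0)
    (u v : MvPolynomial (Fin n) k) {c : Polynomial ℂ} (h : FE f ((Polynomial.X + 1) * c)) :
    FE (stp f u v) ((Polynomial.X + 1) * c.comp (Polynomial.X + 1)) := by
  unfold FE at *
  rw [map_stp]
  exact (bg _ _ _ (map_deg hf) _ h).2 c rfl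

theorem fe_neg_one [Algebra k ℂ] {f : MvPolynomial (Fin n) k} (hf : f.totalDegree ≠ 0)
    {b : Polynomial ℂ} (h : FE f b) : b.eval (-1) = 0 :=
  (bg _ 0 0 (map_deg hf) _ h).1

theorem itr_deg {f : MvPolynomial (Fin n) k} (hf : f.totalDegree ≠ 0) :
    ∀ j : ℕ, (itr f j).totalDegree ≠ 0
  | 0 => hf
  | j + 1 => by
    show (addyz (itr f j)).totalDegree ≠ 0
    rw [← stp_zero]
    exact stp_deg _ _ _

theorem fe_itr [Algebra k ℂ] {f : MvPolynomial (Fin n) k} (hf : f.totalDegree ≠ 0)
    {c : Polynomial ℂ} (h : FE f ((Polynomial.X + 1) * c)) :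
    ∀ j : ℕ, FE (itr f j) ((Polynomial.X + 1) * c.comp (Polynomial.X + Polynomial.C (j : ℂ)))
  | 0 => by
    rw [Nat.cast_zero, map_zero, add_zero, Polynomial.comp_X]
    exact h
  | j + 1 => by
    have h1 := fe_stp (itr_deg hf j) 0 0 (fe_itr hf h j)
    rw [stp_zero] at h1
    have e : (c.comp (Polynomial.X + Polynomial.C (j : ℂ))).comp (Polynomial.X + 1) =
        c.comp (Polynomial.X + Polynomial.C ((j + 1 : ℕ) : ℂ)) := by
      rw [Polynomial.comp_assoc, Polynomial.add_comp, Polynomial.X_comp, Polynomial.C_comp]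
      push_cast
      rw [map_add, map_one]
      congr 1
      ring
    rw [e] at h1
    exact h1

/-- The local functional equations of `f` at the origin, over `ℂ`. -/
def LFE [Algebra k ℂ] (f : MvPolynomial (Fin n) k) (b : Polynomial ℂ) : Prop :=
  Pool.Agent.H628R4.TP.IsLocalBFunction (map (algebraMap k ℂ) f) b

theorem map_const [Algebra k ℂ] {f : MvPolynomial (Fin n) k} (h : constantCoeff f = 0) :
    constantCoeff (map (algebraMap k ℂ) f) = 0 := by
  rw [constantCoeff_map, h, map_zero]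

theorem ne_of_deg {f : MvPolynomial (Fin n) k} (hf : f.totalDegree ≠ 0) : f ≠ 0 := by
  rintro rfl
  exact hf totalDegree_zero

theorem lfe_stp [Algebra k ℂ] {f : MvPolynomial (Fin n) k} (hf : f.totalDegree ≠ 0)
    (hf0 : constantCoeff f = 0) {u v : MvPolynomial (Fin n) k} (hu : constantCoeff u = 0)
    (hv : constantCoeff v = 0) {c : Polynomial ℂ} (h : LFE f ((Polynomial.X + 1) * c)) :
    LFE (stp f u v) ((Polynomial.X + 1) * c.comp (Polynomial.X + 1)) := by
  unfold LFE at *
  rw [map_stp]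
  exact (Pool.Agent.N101.CB.bl _ _ _ (ne_of_deg (map_deg hf)) (map_const hf0) (map_const hu)
    (map_const hv) _ h).2 c rfl

theorem lfe_neg_one [Algebra k ℂ] {f : MvPolynomial (Fin n) k} (hf : f.totalDegree ≠ 0)
    (hf0 : constantCoeff f = 0) {b : Polynomial ℂ} (h : LFE f b) : b.eval (-1) = 0 :=
  (Pool.Agent.N101.CB.bl _ 0 0 (ne_of_deg (map_deg hf)) (map_const hf0) (map_zero _)
    (map_zero _) _ h).1

theorem itr_const {f : MvPolynomial (Fin n) k} (hf : constantCoeff f = 0) :
    ∀ j : ℕ, constantCoeff (itr f j) = 0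
  | 0 => hf
  | j + 1 => by
    show constantCoeff (addyz (itr f j)) = 0
    rw [← stp_zero]
    exact Pool.Agent.N101.CB.stp_const _ _ _ (itr_const hf j) (map_zero _) (map_zero _)

theorem lfe_itr [Algebra k ℂ] {f : MvPolynomial (Fin n) k} (hf : f.totalDegree ≠ 0)
    (hf0 : constantCoeff f = 0) {c : Polynomial ℂ} (h : LFE f ((Polynomial.X + 1) * c)) :
    ∀ j : ℕ, LFE (itr f j) ((Polynomial.X + 1) * c.comp (Polynomial.X + Polynomial.C (j : ℂ)))
  | 0 => by
    rw [Nat.cast_zero, map_zero, add_zero, Polynomial.comp_X]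
    exact h
  | j + 1 => by
    have h1 := lfe_stp (itr_deg hf j) (itr_const hf0 j) (map_zero _) (map_zero _)
      (lfe_itr hf hf0 h j)
    rw [stp_zero] at h1
    have e : (c.comp (Polynomial.X + Polynomial.C (j : ℂ))).comp (Polynomial.X + 1) =
        c.comp (Polynomial.X + Polynomial.C ((j + 1 : ℕ) : ℂ)) := by
      rw [Polynomial.comp_assoc, Polynomial.add_comp, Polynomial.X_comp, Polynomial.C_comp]
      push_cast
      rw [map_add, map_one]
      congr 1
      ring
    rw [e] at h1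
    exact h1

/-- **The relations between `f` and its cubic `F`.** -/
structure Rc [Algebra k ℂ] {n m : ℕ} (f : MvPolynomial (Fin n) k) (F : MvPolynomial (Fin m) k)
    (κ : ℕ) : Prop where
  deg : f.totalDegree ≠ 0 → F.totalDegree ≠ 0
  fe : f.totalDegree ≠ 0 → ∀ c : Polynomial ℂ, FE f ((Polynomial.X + 1) * c) →
    FE F ((Polynomial.X + 1) * c.comp (Polynomial.X + Polynomial.C (κ : ℂ)))
  const : constantCoeff f = 0 → constantCoeff F = 0
  lfe : f.totalDegree ≠ 0 → constantCoeff f = 0 → ∀ c : Polynomial ℂ,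
    LFE f ((Polynomial.X + 1) * c) →
    LFE F ((Polynomial.X + 1) * c.comp (Polynomial.X + Polynomial.C (κ : ℂ)))
  iso : ∃ ψ : MvPolynomial (Fin (n + 2 * κ)) k ≃ₐ[k] MvPolynomial (Fin m) k,
    ψ (itr f κ) = F ∧ ∀ g, constantCoeff (ψ g) = constantCoeff g

/-- the extension of an isomorphism by two variables -/
noncomputable def extA {n m : ℕ} (ψ : MvPolynomial (Fin n) k ≃ₐ[k] MvPolynomial (Fin m) k) :
    MvPolynomial (Fin (n + 2)) k ≃ₐ[k] MvPolynomial (Fin (m + 2)) k :=
  AlgEquiv.ofAlgHom (Pool.Agent.Y405.MS.extH ψ.toAlgHom) (Pool.Agent.Y405.MS.extH ψ.symm.toAlgHom)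
    (Pool.Agent.Y405.MS.extH_comp _ _ fun g => ψ.apply_symm_apply g)
    (Pool.Agent.Y405.MS.extH_comp _ _ fun g => ψ.symm_apply_apply g)

theorem extA_addyz {n m : ℕ} (ψ : MvPolynomial (Fin n) k ≃ₐ[k] MvPolynomial (Fin m) k)
    (f : MvPolynomial (Fin n) k) : extA ψ (addyz f) = addyz (ψ f) := by
  show Pool.Agent.Y405.MS.extH ψ.toAlgHom (addyz f) = addyz (ψ f)
  unfold addyz
  rw [map_add, map_mul, Pool.Agent.Y405.MS.extH_rename, Pool.Agent.Y405.MS.extH_X2,
    Pool.Agent.Y405.MS.extH_X2]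
  rfl

theorem const_hom {a b : ℕ} (φ : MvPolynomial (Fin a) k →ₐ[k] MvPolynomial (Fin b) k)
    (h : ∀ i, constantCoeff (φ (X i)) = 0) (g : MvPolynomial (Fin a) k) :
    constantCoeff (φ g) = constantCoeff g := by
  have e : (constantCoeff : MvPolynomial (Fin b) k →+* k).comp
      (φ : MvPolynomial (Fin a) k →+* MvPolynomial (Fin b) k) = constantCoeff := by
    apply MvPolynomial.ringHom_ext
    · intro r
      have h1 : (φ : MvPolynomial (Fin a) k →+* MvPolynomial (Fin b) k) (C r) = C r := φ.commutes r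
      rw [RingHom.comp_apply, h1, constantCoeff_C, constantCoeff_C]
    · intro i
      rw [RingHom.comp_apply, constantCoeff_X]
      exact h i
  exact DFunLike.congr_fun e g

theorem const_extA {n m : ℕ} (ψ : MvPolynomial (Fin n) k ≃ₐ[k] MvPolynomial (Fin m) k)
    (h : ∀ g, constantCoeff (ψ g) = constantCoeff g) (g : MvPolynomial (Fin (n + 2)) k) :
    constantCoeff (extA ψ g) = constantCoeff g := by
  refine const_hom (extA ψ : MvPolynomial (Fin (n + 2)) k →ₐ[k] MvPolynomial (Fin (m + 2)) k)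
    (fun i => ?_) g
  show constantCoeff (Pool.Agent.Y405.MS.extH ψ.toAlgHom (X i)) = 0
  refine Fin.addCases (fun i => ?_) (fun i => ?_) i
  · rw [Pool.Agent.Y405.MS.extH_X1, constantCoeff_rename]
    exact (h (X i)).trans (constantCoeff_X _ _)
  · rw [Pool.Agent.Y405.MS.extH_X2, constantCoeff_X]

theorem const_psiE (u v : MvPolynomial (Fin n) k) (hu : constantCoeff u = 0)
    (hv : constantCoeff v = 0) (g : MvPolynomial (Fin (n + 2)) k) :
    constantCoeff (psiE u v g) = constantCoeff g := by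
  refine const_hom (psiE u v : MvPolynomial (Fin (n + 2)) k →ₐ[k] MvPolynomial (Fin (n + 2)) k)
    (fun i => ?_) g
  show constantCoeff (Pool.Agent.N101.CB.psiH u v (X i)) = 0
  refine Fin.addCases (fun i => ?_) (fun i => ?_) i
  · rw [Pool.Agent.N101.CB.psiH_x, constantCoeff_X]
  · fin_cases i
    · show constantCoeff (Pool.Agent.N101.CB.psiH u v (X (Fin.natAdd n 0))) = 0
      rw [Pool.Agent.N101.CB.psiH_t, map_add, constantCoeff_X, constantCoeff_rename, hv, add_zero]
    · show constantCoeff (Pool.Agent.N101.CB.psiH u v (X (Fin.natAdd n 1))) = 0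
      rw [Pool.Agent.N101.CB.psiH_w, map_sub, constantCoeff_X, constantCoeff_rename, hu, sub_zero]

/-- the extension of an isomorphism by `2 j` variables -/
noncomputable def extN {n m : ℕ} (κ : ℕ)
    (ψ : MvPolynomial (Fin (n + 2 * κ)) k ≃ₐ[k] MvPolynomial (Fin m) k) :
    (j : ℕ) → MvPolynomial (Fin (n + 2 * (κ + j))) k ≃ₐ[k] MvPolynomial (Fin (m + 2 * j)) k
  | 0 => ψ
  | j + 1 => extA (extN κ ψ j)

theorem extN_itr {n m : ℕ} (κ : ℕ)
    (ψ : MvPolynomial (Fin (n + 2 * κ)) k ≃ₐ[k] MvPolynomial (Fin m) k)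
    (f : MvPolynomial (Fin n) k) : ∀ j : ℕ, extN κ ψ j (itr f (κ + j)) = itr (ψ (itr f κ)) j
  | 0 => rfl
  | j + 1 => (extA_addyz _ _).trans (congrArg addyz (extN_itr κ ψ f j))

theorem const_extN {n m : ℕ} (κ : ℕ)
    (ψ : MvPolynomial (Fin (n + 2 * κ)) k ≃ₐ[k] MvPolynomial (Fin m) k)
    (h : ∀ g, constantCoeff (ψ g) = constantCoeff g) :
    ∀ (j : ℕ) (g : MvPolynomial (Fin (n + 2 * (κ + j))) k),
      constantCoeff (extN κ ψ j g) = constantCoeff g
  | 0 => h
  | j + 1 => const_extA (extN κ ψ j) (const_extN κ ψ h j)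

theorem Rc.refl [Algebra k ℂ] (f : MvPolynomial (Fin n) k) : Rc f f 0 where
  deg h := h
  fe _ c h := by
    rw [Nat.cast_zero, map_zero, add_zero, Polynomial.comp_X]
    exact h
  const h := h
  lfe _ _ c h := by
    rw [Nat.cast_zero, map_zero, add_zero, Polynomial.comp_X]
    exact h
  iso := ⟨AlgEquiv.refl, rfl, fun _ => rfl⟩

theorem Rc.step [Algebra k ℂ] {n m : ℕ} (f u v : MvPolynomial (Fin n) k)
    (F : MvPolynomial (Fin m) k) (κ : ℕ) (hu : constantCoeff u = 0) (hv : constantCoeff v = 0)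
    (h : Rc (stp f u v) F κ) : Rc f F (κ + 1) where
  deg _ := h.deg (stp_deg f u v)
  fe hf c hc := by
    rw [← Pool.Agent.N101.CB.comp_succ]
    exact h.fe (stp_deg f u v) _ (fe_stp hf u v hc)
  const h0 := h.const (Pool.Agent.N101.CB.stp_const f u v h0 hu hv)
  lfe hf h0 c hc := by
    rw [← Pool.Agent.N101.CB.comp_succ]
    exact h.lfe (stp_deg f u v) (Pool.Agent.N101.CB.stp_const f u v h0 hu hv) _
      (lfe_stp hf h0 hu hv hc)
  iso := by
    obtain ⟨χ, hχ, hχ'⟩ := h.iso
    have e : 1 + κ = κ + 1 := add_comm _ _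
    rw [← e]
    have h1 := extN_itr (n := n) (m := n + 2) 1 (psiE u v) f κ
    have h2 : psiE u v (itr f 1) = stp f u v := psiE_addyz f u v
    rw [h2] at h1
    refine ⟨(extN (n := n) (m := n + 2) 1 (psiE u v) κ).trans χ, ?_, fun g => ?_⟩
    · rw [AlgEquiv.trans_apply, h1]
      exact hχ
    · rw [AlgEquiv.trans_apply, hχ']
      exact const_extN (n := n) (m := n + 2) 1 (psiE u v) (const_psiE u v hu hv) κ g

/-- **The cubic of a polynomial.** -/
theorem exists_cubic [Algebra k ℂ] {n : ℕ} (f : MvPolynomial (Fin n) k) :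
    ∃ (κ m : ℕ) (F : MvPolynomial (Fin m) k), m = n + 2 * κ ∧ Cub F ∧ Rc f F κ :=
  chain (fun f F κ => Rc f F κ) (fun f => Rc.refl f)
    (fun f u v F κ hu hv h => Rc.step f u v F κ hu hv h) f

/-- `F + y z` is again such a cubic. -/
theorem cub_addyz {F : MvPolynomial (Fin n) k} (h : Cub F) : Cub (addyz F) := by
  classical
  obtain ⟨T, hT⟩ := h
  refine ⟨T.image (Fin.castAdd 2), fun m hm => ?_⟩
  have h1 : m ∈ (rename (Fin.castAdd 2) F).support ∪
      (X (Fin.natAdd n 0) * X (Fin.natAdd n 1) : MvPolynomial (Fin (n + 2)) k).support :=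
    support_add hm
  have hsum : ∀ (S : Finset (Fin (n + 2))), ∑ i ∈ S, m i =
      ∑ i : Fin (n + 2), if i ∈ S then m i else 0 := by
    intro S
    rw [Finset.sum_ite_mem, Finset.univ_inter]
  rw [hsum, hsum]
  rw [Fin.sum_univ_add, Fin.sum_univ_add]
  have hc : ∀ i : Fin n, (Fin.castAdd 2 i ∈ T.image (Fin.castAdd 2)) ↔ i ∈ T := by
    intro i
    rw [Finset.mem_image]
    constructor
    · rintro ⟨j, hj, he⟩
      rwa [← Fin.castAdd_injective n 2 he]
    · intro hi
      exact ⟨i, hi, rfl⟩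
  have hn : ∀ i : Fin 2, Fin.natAdd n i ∉ T.image (Fin.castAdd 2) := by
    intro i hi
    obtain ⟨j, -, he⟩ := Finset.mem_image.1 hi
    have := congrArg Fin.val he
    simp only [Fin.val_castAdd, Fin.val_natAdd] at this
    omega
  simp only [Finset.mem_compl, hc, hn, not_false_eq_true, if_true, if_false,
    Finset.sum_const_zero, add_zero]
  rcases Finset.mem_union.1 h1 with h2 | h2
  · obtain ⟨d, rfl, hd⟩ := coeff_rename_ne_zero _ _ _ (mem_support_iff.1 h2)
    have hd' := hT d (mem_support_iff.2 hd)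
    have e1 : ∀ i : Fin n, (d.mapDomain (Fin.castAdd 2)) (Fin.castAdd 2 i) = d i := fun i =>
      Finsupp.mapDomain_apply (Fin.castAdd_injective n 2) _ _
    have e2 : ∀ i : Fin 2, (d.mapDomain (Fin.castAdd 2)) (Fin.natAdd n i) = 0 := by
      intro i
      refine Finsupp.mapDomain_of_notMem_range _ _ ?_
      rintro ⟨j, hj⟩
      have := congrArg Fin.val hj
      simp only [Fin.val_castAdd, Fin.val_natAdd] at this
      omega
    obtain ⟨f1, f2, f3⟩ := hd'
    refine ⟨fun i => ?_, ?_, ?_⟩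
    · refine Fin.addCases (fun i => ?_) (fun i => ?_) i
      · rw [e1]
        exact f1 i
      · rw [e2]
        exact Nat.zero_le _
    · have e3 : (∑ i : Fin n, if i ∈ T then (d.mapDomain (Fin.castAdd 2)) (Fin.castAdd 2 i)
          else 0) = ∑ i ∈ T, d i := by
        rw [← Finset.sum_filter]
        refine Finset.sum_congr (by ext i; simp) fun i _ => e1 i
      rw [e3]
      exact f2
    · have e3 : (∑ i : Fin n, if i ∈ T then 0 else
          (d.mapDomain (Fin.castAdd 2)) (Fin.castAdd 2 i)) = ∑ i ∈ Tᶜ, d i := by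
        have : ∀ i : Fin n, (if i ∈ T then 0 else
          (d.mapDomain (Fin.castAdd 2)) (Fin.castAdd 2 i)) = if i ∈ Tᶜ then d i else 0 := by
          intro i
          rw [e1]
          by_cases hi : i ∈ T
          · simp [hi]
          · simp [hi]
        simp only [this]
        rw [Finset.sum_ite_mem, Finset.univ_inter]
      have e4 : (∑ i : Fin 2, (d.mapDomain (Fin.castAdd 2)) (Fin.natAdd n i)) = 0 :=
        Finset.sum_eq_zero fun i _ => e2 i
      simp only [ite_not]
      rw [e3, e4]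
      simpa using f3
  · have h3 : (X (Fin.natAdd n 0) * X (Fin.natAdd n 1) : MvPolynomial (Fin (n + 2)) k) =
        monomial (Finsupp.single (Fin.natAdd n 0) 1 + Finsupp.single (Fin.natAdd n 1) 1) 1 := by
      rw [X, X, monomial_mul, one_mul]
    rw [h3] at h2
    have h4 := support_monomial_subset h2
    rw [Finset.mem_singleton] at h4
    have hne : ∀ (i : Fin n) (j : Fin 2), Fin.natAdd n j ≠ Fin.castAdd 2 i := by
      intro i j he
      have := congrArg Fin.val he
      simp only [Fin.val_castAdd, Fin.val_natAdd] at this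
      omega
    have e1 : ∀ i : Fin n, m (Fin.castAdd 2 i) = 0 := by
      intro i
      rw [h4, Finsupp.add_apply, Finsupp.single_apply, Finsupp.single_apply, if_neg (hne i 0),
        if_neg (hne i 1), add_zero]
    have e2 : ∀ i : Fin 2, m (Fin.natAdd n i) = 1 := by
      intro i
      rw [h4, Finsupp.add_apply, Finsupp.single_apply, Finsupp.single_apply]
      fin_cases i <;> simp
    refine ⟨fun i => ?_, ?_, ?_⟩
    · refine Fin.addCases (fun i => ?_) (fun i => ?_) i
      · rw [e1]
        exact Nat.zero_le _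
      · rw [e2]
    · simp only [e1, ite_self, Finset.sum_const_zero]
      exact Nat.zero_le _
    · simp only [e1, e2, ite_self, Finset.sum_const_zero]
      simp

theorem cub_itr {F : MvPolynomial (Fin n) k} (h : Cub F) : ∀ j : ℕ, Cub (itr F j)
  | 0 => h
  | j + 1 => cub_addyz (cub_itr h j)

end

end Pool.Agent.J6H85.CU
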