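import Pool.Agent.J6H85.CU.Pol

/-!
# Points, and the local motivic zeta functions at points
-/

set_option autoImplicit false
set_option linter.unusedSectionVars false

namespace Pool.Agent.J6H85.CU

open MvPolynomial Pool.Agent.W428.MOT
open Pool.Agent.W375.MG (JetG Good zetaG good_one)
open Pool.Agent.Y229.MS (addyz itr CE ce_good zs phiS zeta_iso t1 Witr constr_Witr)
open Pool.Agent.W63.MTFin (mapMeas L_mul)
open Pool.Agent.N101.CB (Wo constr_Wo)

section
variable {K : Type} [Field K] [CharZero K] {n : ℕ}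

/-- the geometric point of a point with coordinates in `K` -/
noncomputable def pt (x : Fin n → K) : Pt K (Fin n) :=
  fun i => algebraMap K (AlgebraicClosure K) (x i)

theorem aeval_pt (x : Fin n → K) (g : MvPolynomial (Fin n) K) :
    aeval (pt x) g = algebraMap K (AlgebraicClosure K) (aeval x g) :=
  aeval_algebraMap_apply (AlgebraicClosure K) x g

theorem constr_pt (x : Fin n → K) : Constr ({pt x} : Set (Pt K (Fin n))) :=
  Pool.Agent.W425.MM.constr_pt x

/-- the image of a point under an isomorphism -/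
noncomputable def tp {a b : ℕ} (ψ : MvPolynomial (Fin a) K ≃ₐ[K] MvPolynomial (Fin b) K)
    (x : Fin a → K) : Fin b → K := fun i => aeval x (ψ.symm (X i))

theorem aeval_tp {a b : ℕ} (ψ : MvPolynomial (Fin a) K ≃ₐ[K] MvPolynomial (Fin b) K)
    (x : Fin a → K) (g : MvPolynomial (Fin b) K) : aeval (tp ψ x) g = aeval x (ψ.symm g) := by
  have h : (aeval (tp ψ x) : MvPolynomial (Fin b) K →ₐ[K] K) =
      (aeval x : MvPolynomial (Fin a) K →ₐ[K] K).comp
        (ψ.symm : MvPolynomial (Fin b) K →ₐ[K] MvPolynomial (Fin a) K) := by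
    apply MvPolynomial.algHom_ext
    intro i
    rw [aeval_X]
    rfl
  exact DFunLike.congr_fun h g

theorem pull_pt {a b : ℕ} (ψ : MvPolynomial (Fin a) K ≃ₐ[K] MvPolynomial (Fin b) K)
    (x : Fin a → K) : {w : Pt K (Fin b) | (fun i => aeval w (ψ (X i))) ∈
      ({pt x} : Set (Pt K (Fin a)))} = {pt (tp ψ x)} := by
  ext w
  rw [Set.mem_ofPred_eq, Set.mem_singleton_iff, Set.mem_singleton_iff]
  constructor
  · intro h
    have e : (aeval w : MvPolynomial (Fin b) K →ₐ[K] AlgebraicClosure K).comp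
        (ψ : MvPolynomial (Fin a) K →ₐ[K] MvPolynomial (Fin b) K) = aeval (pt x) := by
      apply MvPolynomial.algHom_ext
      intro i
      rw [aeval_X]
      exact congrFun h i
    funext j
    have h1 := DFunLike.congr_fun e (ψ.symm (X j))
    rw [AlgHom.comp_apply] at h1
    have h2 : (ψ : MvPolynomial (Fin a) K →ₐ[K] MvPolynomial (Fin b) K) (ψ.symm (X j)) = X j :=
      ψ.apply_symm_apply _
    rw [h2, aeval_X, aeval_pt] at h1
    exact h1
  · rintro rfl
    funext i
    rw [aeval_pt, aeval_tp, AlgEquiv.symm_apply_apply, aeval_X]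
    rfl

theorem cls_empty (ι : Type) [Fintype ι] : cls ι (∅ : Set (Pt K ι)) = 0 := by
  obtain ⟨M₀, hM₀⟩ := Pool.Agent.W417.MT.K0.main K
  rw [← hM₀]
  exact chi_empty M₀

/-- the local zeta function at a point with `f(x) = 0` -/
theorem zeta_pt (f : MvPolynomial (Fin n) K) (x : Fin n → K) (hx : aeval x f = 0) :
    zeta f x = zetaG f {pt x} {1} := by
  have h0 : ∀ z ∈ ({pt x} : Set (Pt K (Fin n))), aeval z f = 0 := by
    rintro z hz
    rw [Set.mem_singleton_iff.1 hz, aeval_pt, hx, map_zero]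
  ext d
  rw [zeta, zetaG, PowerSeries.coeff_mk, PowerSeries.coeff_mk]
  by_cases hd : d = 0
  · subst hd
    rw [if_pos rfl, jet_empty f h0 good_one, cls_empty, map_zero, zero_mul]
  · rw [if_neg hd]
    have h3 : Jet f x d = JetG f {pt x} {1} d := by
      ext z
      simp only [Jet, JetG, Set.mem_ofPred_eq, Set.mem_singleton_iff, funext_iff]
      refine and_congr_right fun _ => ?_
      constructor
      · intro h
        refine ⟨fun j hj => ?_, ?_⟩
        · rw [h j hj.le, if_neg (by omega)]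
        · rw [h d le_rfl, if_pos rfl]
      · rintro ⟨h1, h2⟩ j hj
        by_cases h : j = d
        · rw [h, h2, if_pos rfl]
        · rw [h1 j (by omega), if_neg h]
    rw [h3]

/-- **Transport of the local zeta functions.** -/
theorem zeta_tp {a b : ℕ} (hab : a = b)
    (ψ : MvPolynomial (Fin a) K ≃ₐ[K] MvPolynomial (Fin b) K) (g : MvPolynomial (Fin a) K)
    (x : Fin a → K) (hx : aeval x g = 0) : zeta (ψ g) (tp ψ x) = zeta g x := by
  rw [zeta_pt g x hx, zeta_pt (ψ g) (tp ψ x) (by rw [aeval_tp, AlgEquiv.symm_apply_apply, hx]),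
    ← pull_pt]
  exact zeta_iso Pool.Agent.Z864.MS.three hab ψ g (constr_pt x) (ce_good good_one)

/-- the point `(x, 0, 0)` -/
def ap0 (x : Fin n → K) : Fin (n + 2) → K := Fin.append x fun _ : Fin 2 => 0

/-- The point `(x, 0)`, with `2 j` coordinates `0`. -/
def pz (x : Fin n → K) (j : ℕ) : Fin (n + 2 * j) → K :=
  fun i => if h : (i : ℕ) < n then x ⟨i, h⟩ else 0

theorem pz_nil (x : Fin n → K) : pz x 0 = x := by
  funext i
  have h : (i : ℕ) < n := i.2
  unfold pz
  rw [dif_pos h]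
  rfl

theorem pz_succ (x : Fin n → K) (j : ℕ) : pz x (j + 1) = ap0 (n := n + 2 * j) (pz x j) := by
  unfold ap0
  funext i
  refine Fin.addCases (m := n + 2 * j) (n := 2) (fun i => ?_) (fun i => ?_) i
  · rw [Fin.append_left]
    rfl
  · rw [Fin.append_right]
    unfold pz
    rw [dif_neg]
    show ¬ (n + 2 * j + (i : ℕ) < n)
    omega

theorem aeval_append (f : MvPolynomial (Fin n) K) (x : Fin n → K) :
    aeval (ap0 x) (addyz f) = aeval x f := by
  unfold addyz ap0
  rw [map_add, map_mul, aeval_X, aeval_X, Fin.append_right, zero_mul, add_zero, aeval_rename]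
  congr 1
  congr 1
  funext i
  exact Fin.append_left _ _ _

theorem aeval_pz (f : MvPolynomial (Fin n) K) (x : Fin n → K) :
    ∀ j : ℕ, aeval (pz x j) (itr f j) = aeval x f
  | 0 => by
    rw [pz_nil]
    rfl
  | j + 1 => by
    rw [pz_succ]
    exact (aeval_append (itr f j) (pz x j)).trans (aeval_pz f x j)

theorem Wo_pt (y : Fin n → K) :
    Wo ({pt y} : Set (Pt K (Fin n))) = {pt (ap0 y)} := by
  unfold ap0
  ext w
  rw [Set.mem_singleton_iff]
  constructor
  · rintro ⟨h1, h2, h3⟩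
    funext i
    refine Fin.addCases (fun i => ?_) (fun i => ?_) i
    · have := congrFun (Set.mem_singleton_iff.1 h1) i
      rw [this, pt, pt, Fin.append_left]
    · rw [pt, Fin.append_right, map_zero]
      fin_cases i
      · exact h2
      · exact h3
  · rintro rfl
    refine ⟨?_, ?_, ?_⟩
    · rw [Set.mem_singleton_iff]
      funext i
      rw [pt, pt, Fin.append_left]
    · rw [pt, Fin.append_right, map_zero]
    · rw [pt, Fin.append_right, map_zero]

theorem Wz_pt (x : Fin n → K) : ∀ j : ℕ, Wz ({pt x} : Set (Pt K (Fin n))) j = {pt (pz x j)}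
  | 0 => by
    rw [pz_nil]
    rfl
  | j + 1 => by
    rw [pz_succ]
    exact (congrArg Wo (Wz_pt x j)).trans (Wo_pt (pz x j))

theorem tp_extA {a b : ℕ} (ψ : MvPolynomial (Fin a) K ≃ₐ[K] MvPolynomial (Fin b) K)
    (x : Fin a → K) : tp (extA ψ) (ap0 x) = ap0 (tp ψ x) := by
  unfold ap0
  funext i
  refine Fin.addCases (fun i => ?_) (fun i => ?_) i
  · rw [Fin.append_left]
    show aeval _ (Pool.Agent.Y405.MS.extH ψ.symm.toAlgHom (X (Fin.castAdd 2 i))) = _
    rw [Pool.Agent.Y405.MS.extH_X1, aeval_rename]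
    unfold tp
    congr 1
    congr 1
    funext j
    exact Fin.append_left _ _ _
  · rw [Fin.append_right]
    show aeval _ (Pool.Agent.Y405.MS.extH ψ.symm.toAlgHom (X (Fin.natAdd b i))) = _
    rw [Pool.Agent.Y405.MS.extH_X2, aeval_X, Fin.append_right]

theorem tp_extN {m : ℕ} (κ : ℕ)
    (ψ : MvPolynomial (Fin (n + 2 * κ)) K ≃ₐ[K] MvPolynomial (Fin m) K) (x : Fin n → K) :
    ∀ j : ℕ, tp (extN κ ψ j) (pz x (κ + j)) = pz (tp ψ (pz x κ)) j
  | 0 => by
    rw [pz_nil]
    rfl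
  | j + 1 => by
    rw [pz_succ]
    have e : pz x (κ + (j + 1)) = ap0 (n := n + 2 * (κ + j)) (pz x (κ + j)) := pz_succ x (κ + j)
    rw [e]
    exact (tp_extA (extN κ ψ j) (pz x (κ + j))).trans (congrArg ap0 (tp_extN κ ψ x j))

/-! ### The relations for the points, in a ring `R` over `𝓜_K` -/

variable {R : Type} [CommRing R]

/-- the image of `𝕃` -/
noncomputable def Lw (θ : MK K →+* R) : Rˣ := Units.map (θ : MK K →* R) (Lu K)

theorem zs_eq (θ : MK K →+* R) {M₀ : Meas K (K0 K)}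
    (hM₀ : ∀ (ι : Type) [Fintype ι] (S : Set (Pt K ι)), M₀.χ ι S = cls ι S)
    (f : MvPolynomial (Fin n) K) (W : Set (Pt K (Fin n))) (E : Set (AlgebraicClosure K)) :
    zs (mapMeas M₀ (θ.comp (algebraMap (K0 K) (MK K)))) (((Lw θ)⁻¹ : Rˣ) : R) f W E =
      PowerSeries.map θ (zetaG f W E) := by
  ext N
  rw [zs, PowerSeries.coeff_mk, PowerSeries.coeff_map, zetaG, PowerSeries.coeff_mk, map_mul,
    ← hM₀]
  congr 1
  rw [zpow_neg, zpow_natCast, ← inv_pow, Units.val_pow_eq_pow_val, map_pow]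
  rfl

theorem L_eq (θ : MK K →+* R) {M₀ : Meas K (K0 K)}
    (hM₀ : ∀ (ι : Type) [Fintype ι] (S : Set (Pt K ι)), M₀.χ ι S = cls ι S) :
    (mapMeas M₀ (θ.comp (algebraMap (K0 K) (MK K)))).L = ((Lw θ : Rˣ) : R) := by
  show θ (algebraMap (K0 K) (MK K) (M₀.χ (Fin 1) Set.univ)) = _
  rw [hM₀]
  rfl

/-- **The relations for the points.** -/
theorem hom_pt (θ : MK K →+* R) (f : MvPolynomial (Fin n) K) (x : Fin n → K)
    (hx : aeval x f = 0) : ∃ (c : R) (Z φ : ℕ → PowerSeries R), Hom (Lw θ) c Z φ ∧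
      Near (Lw θ) Z (fun j => PowerSeries.map θ (zeta (itr f j) (pz x j))) ∧
      Z 0 = PowerSeries.map θ (zeta f x) := by
  obtain ⟨M₀, hM₀⟩ := Pool.Agent.W417.MT.K0.main K
  set M := mapMeas M₀ (θ.comp (algebraMap (K0 K) (MK K))) with hM
  have hu : M.L = ((Lw θ : Rˣ) : R) := L_eq θ hM₀
  have h0 : ∀ z ∈ ({pt x} : Set (Pt K (Fin n))), aeval z f = 0 := by
    rintro z hz
    rw [Set.mem_singleton_iff.1 hz, aeval_pt, hx, map_zero]
  have e : ∀ j : ℕ, zs M (((Lw θ)⁻¹ : Rˣ) : R) (itr f j) (Wz {pt x} j) {1} =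
      PowerSeries.map θ (zeta (itr f j) (pz x j)) := by
    intro j
    rw [Wz_pt, zeta_pt (itr f j) (pz x j) (by rw [aeval_pz, hx]), hM]
    exact zs_eq θ hM₀ _ _ _
  have h := hom_loc t1 Pool.Agent.Y812.MS.two M (Lw θ) hu f (constr_pt x) h0
    (good_one (K := K))
  have hn := near_loc M (Lw θ) f {pt x} {1}
  refine ⟨_, _, _, h, ?_, ?_⟩
  · intro j
    obtain ⟨P, hP⟩ := hn j
    refine ⟨P, ?_⟩
    rw [← hP]
    show _ * (_ - PowerSeries.map θ (zeta (itr f j) (pz x j))) = _
    rw [← e j]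
  · show zs M (((Lw θ)⁻¹ : Rˣ) : R) (itr f 0) (Wz {pt x} 0) {1} + aC (Lw θ) _ _ 0 = _
    rw [aC_zero, add_zero, e 0, pz_nil]
    rfl

/-- **The relations for all origins.** -/
theorem hom_all (θ : MK K →+* R) (f : MvPolynomial (Fin n) K) {W : Set (Pt K (Fin n))}
    (hW : Constr W) {E : Set (AlgebraicClosure K)} (hE : CE E) :
    ∃ (c : R) (Z φ : ℕ → PowerSeries R), Hom (Lw θ) c Z φ ∧
      ∀ j, Z j = PowerSeries.map θ (zetaG (itr f j) (Witr W j) E) := by
  obtain ⟨M₀, hM₀⟩ := Pool.Agent.W417.MT.K0.main K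
  set M := mapMeas M₀ (θ.comp (algebraMap (K0 K) (MK K))) with hM
  have hu : M.L = ((Lw θ : Rˣ) : R) := L_eq θ hM₀
  have h := hom_cyl t1 Pool.Agent.Y812.MS.two M (Lw θ) hu f hW hE
  refine ⟨_, _, _, h, fun j => ?_⟩
  exact zs_eq θ hM₀ _ _ _

end

end Pool.Agent.J6H85.CU
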