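import Mathlib

/-!
# The rings `R[T, 1 / (1 - u ^ a T ^ b)]`, `(a, b) ∈ S`
-/

set_option autoImplicit false

namespace Pool.Agent.J6H85.CU

variable {R : Type} [CommRing R]

/-- The power series `1 / (1 - u ^ a T ^ b)`, for `b > 0`. -/
noncomputable def geoR (u : Rˣ) (a b : ℤ) : PowerSeries R :=
  PowerSeries.invOfUnit (1 - PowerSeries.C ((u ^ a : Rˣ) : R) * PowerSeries.X ^ b.toNat) 1

/-- The subring `R[T, 1 / (1 - u ^ a T ^ b)]_{(a,b) ∈ S}` of `R[[T]]`. -/
noncomputable def rat (u : Rˣ) (S : Set (ℤ × ℤ)) : Subalgebra R (PowerSeries R) :=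
  Algebra.adjoin R ({PowerSeries.X} ∪ {g | ∃ p ∈ S, g = geoR u p.1 p.2})

/-- `S` shifted by `κ`: the pairs `(a + κ b, b)` -/
def shn (κ : ℕ) (S : Set (ℤ × ℤ)) : Set (ℤ × ℤ) := {p | ∃ q ∈ S, p = (q.1 + κ * q.2, q.2)}

/-- `1 - u ^ a T ^ b` as a polynomial -/
noncomputable def fac (u : Rˣ) (p : ℤ × ℤ) : Polynomial R :=
  1 - Polynomial.C ((u ^ p.1 : Rˣ) : R) * Polynomial.X ^ p.2.toNat

theorem geoR_mul (u : Rˣ) (a b : ℤ) (hb : 0 < b) :
    (1 - PowerSeries.C ((u ^ a : Rˣ) : R) * PowerSeries.X ^ b.toNat) * geoR u a b = 1 := by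
  unfold geoR
  refine PowerSeries.mul_invOfUnit _ _ ?_
  have h : b.toNat ≠ 0 := by omega
  rw [map_sub, map_mul, map_pow, PowerSeries.constantCoeff_X, zero_pow h, mul_zero, map_one,
    sub_zero, Units.val_one]

theorem coe_fac (u : Rˣ) (p : ℤ × ℤ) : ((fac u p : Polynomial R) : PowerSeries R) =
    1 - PowerSeries.C ((u ^ p.1 : Rˣ) : R) * PowerSeries.X ^ p.2.toNat := by
  unfold fac
  push_cast
  rfl

theorem fac_mul (u : Rˣ) (p : ℤ × ℤ) (hp : 0 < p.2) :
    ((fac u p : Polynomial R) : PowerSeries R) * geoR u p.1 p.2 = 1 := by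
  rw [coe_fac]
  exact geoR_mul u p.1 p.2 hp

theorem X_mem (u : Rˣ) (S : Set (ℤ × ℤ)) : (PowerSeries.X : PowerSeries R) ∈ rat u S :=
  Algebra.subset_adjoin (Or.inl rfl)

theorem C_mem (u : Rˣ) (S : Set (ℤ × ℤ)) (a : R) : PowerSeries.C a ∈ rat u S := by
  have := (rat u S).algebraMap_mem a
  rwa [PowerSeries.algebraMap_apply, Algebra.algebraMap_self, RingHom.id_apply] at this

theorem geoR_mem (u : Rˣ) {S : Set (ℤ × ℤ)} {p : ℤ × ℤ} (hp : p ∈ S) :
    geoR u p.1 p.2 ∈ rat u S := Algebra.subset_adjoin (Or.inr ⟨p, hp, rfl⟩)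

theorem rat_mono (u : Rˣ) {S T : Set (ℤ × ℤ)} (h : S ⊆ T) : rat u S ≤ rat u T := by
  refine Algebra.adjoin_mono ?_
  rintro x (hx | ⟨p, hp, rfl⟩)
  · exact Or.inl hx
  · exact Or.inr ⟨p, h hp, rfl⟩

theorem poly_mem (u : Rˣ) (S : Set (ℤ × ℤ)) (P : Polynomial R) :
    (P : PowerSeries R) ∈ rat u S := by
  induction P using Polynomial.induction_on' with
  | add p q hp hq =>
    rw [Polynomial.coe_add]
    exact (rat u S).add_mem hp hq
  | monomial n a =>
    rw [← Polynomial.C_mul_X_pow_eq_monomial, Polynomial.coe_mul, Polynomial.coe_C,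
      Polynomial.coe_pow, Polynomial.coe_X]
    exact (rat u S).mul_mem (C_mem _ _ _) ((rat u S).pow_mem (X_mem _ _) _)

theorem rescale_X' (L : R) : PowerSeries.rescale L (PowerSeries.X : PowerSeries R) =
    PowerSeries.C L * PowerSeries.X := by
  ext n
  rw [PowerSeries.coeff_rescale, PowerSeries.coeff_C_mul, PowerSeries.coeff_X]
  split_ifs with h
  · rw [h, pow_one]
  · rw [mul_zero, mul_zero]

theorem rescale_C' (L a : R) : PowerSeries.rescale L (PowerSeries.C a : PowerSeries R) =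
    PowerSeries.C a := by
  ext n
  rw [PowerSeries.coeff_rescale, PowerSeries.coeff_C]
  split_ifs with h
  · rw [h, pow_zero, one_mul]
  · rw [mul_zero]

theorem rescale_geoR (u : Rˣ) (a b : ℤ) (hb : 0 < b) :
    PowerSeries.rescale (u : R) (geoR u a b) = geoR u (a + b) b := by
  have h1 := congrArg (PowerSeries.rescale (u : R)) (geoR_mul u a b hb)
  have h2 := geoR_mul u (a + b) b hb
  have h3 : PowerSeries.C ((u ^ a : Rˣ) : R) *
      (PowerSeries.C (u : R) * PowerSeries.X) ^ b.toNat =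
      PowerSeries.C ((u ^ (a + b) : Rˣ) : R) * PowerSeries.X ^ b.toNat := by
    rw [mul_pow, ← mul_assoc, ← map_pow, ← map_mul, ← Units.val_pow_eq_pow_val, ← Units.val_mul]
    congr 3
    rw [zpow_add]
    congr 1
    rw [← zpow_natCast, Int.toNat_of_nonneg hb.le]
  rw [map_mul, map_sub, map_one, map_mul, map_pow, rescale_C', rescale_X', h3] at h1
  calc PowerSeries.rescale (u : R) (geoR u a b) =
      ((1 - PowerSeries.C ((u ^ (a + b) : Rˣ) : R) * PowerSeries.X ^ b.toNat) *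
        geoR u (a + b) b) * PowerSeries.rescale (u : R) (geoR u a b) := by rw [h2, one_mul]
    _ = ((1 - PowerSeries.C ((u ^ (a + b) : Rˣ) : R) * PowerSeries.X ^ b.toNat) *
        PowerSeries.rescale (u : R) (geoR u a b)) * geoR u (a + b) b := by ring
    _ = geoR u (a + b) b := by rw [h1, one_mul]

theorem shn_pos {κ : ℕ} {S : Set (ℤ × ℤ)} (hS : ∀ p ∈ S, 0 < p.2) : ∀ p ∈ shn κ S, 0 < p.2 := by
  rintro p ⟨q, hq, rfl⟩
  exact hS q hq

theorem shn_one_shn (κ : ℕ) (S : Set (ℤ × ℤ)) : shn 1 (shn κ S) = shn (κ + 1) S := by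
  ext p
  constructor
  · rintro ⟨q, ⟨q', hq', rfl⟩, rfl⟩
    refine ⟨q', hq', ?_⟩
    rw [Prod.mk.injEq]
    refine ⟨?_, rfl⟩
    push_cast
    ring
  · rintro ⟨q, hq, rfl⟩
    refine ⟨(q.1 + κ * q.2, q.2), ⟨q, hq, rfl⟩, ?_⟩
    rw [Prod.mk.injEq]
    refine ⟨?_, rfl⟩
    push_cast
    ring

theorem rescale_mem (u : Rˣ) {S : Set (ℤ × ℤ)} (hS : ∀ p ∈ S, 0 < p.2) {z : PowerSeries R}
    (hz : z ∈ rat u S) : PowerSeries.rescale (u : R) z ∈ rat u (shn 1 S) := by
  unfold rat at hz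
  refine Algebra.adjoin_induction (p := fun z _ =>
    PowerSeries.rescale (u : R) z ∈ rat u (shn 1 S)) ?_ ?_ ?_ ?_ hz
  · rintro x (hx | ⟨p, hp, rfl⟩)
    · rw [Set.mem_singleton_iff] at hx
      rw [hx, rescale_X']
      exact (rat u _).mul_mem (C_mem _ _ _) (X_mem _ _)
    · rw [rescale_geoR u p.1 p.2 (hS p hp)]
      refine geoR_mem u (p := (p.1 + p.2, p.2)) ⟨p, hp, ?_⟩
      push_cast
      rw [one_mul]
  · intro r
    rw [PowerSeries.algebraMap_apply, Algebra.algebraMap_self, RingHom.id_apply, rescale_C']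
    exact C_mem _ _ _
  · intro x y _ _ hx hy
    rw [map_add]
    exact (rat u _).add_mem hx hy
  · intro x y _ _ hx hy
    rw [map_mul]
    exact (rat u _).mul_mem hx hy

/-- iterated substitution `T ↦ u ^ κ T` -/
noncomputable def rsn (u : Rˣ) (κ : ℕ) (z : PowerSeries R) : PowerSeries R :=
  (fun z => PowerSeries.rescale (u : R) z)^[κ] z

theorem rsn_zero (u : Rˣ) (z : PowerSeries R) : rsn u 0 z = z := rfl

theorem rsn_succ (u : Rˣ) (κ : ℕ) (z : PowerSeries R) :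
    rsn u (κ + 1) z = rsn u κ (PowerSeries.rescale (u : R) z) := rfl

theorem rsn_succ' (u : Rˣ) (κ : ℕ) (z : PowerSeries R) :
    rsn u (κ + 1) z = PowerSeries.rescale (u : R) (rsn u κ z) := by
  unfold rsn
  exact Function.iterate_succ_apply' _ _ _

theorem shn_zero (S : Set (ℤ × ℤ)) : shn 0 S = S := by
  ext p
  constructor
  · rintro ⟨q, hq, rfl⟩
    have : (q.1 + ((0 : ℕ) : ℤ) * q.2, q.2) = q := by
      rw [Nat.cast_zero, zero_mul, add_zero]
    rwa [this]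
  · intro hp
    refine ⟨p, hp, ?_⟩
    rw [Nat.cast_zero, zero_mul, add_zero]

theorem rsn_mem (u : Rˣ) {S : Set (ℤ × ℤ)} (hS : ∀ p ∈ S, 0 < p.2) {z : PowerSeries R}
    (hz : z ∈ rat u S) : ∀ κ : ℕ, rsn u κ z ∈ rat u (shn κ S)
  | 0 => by
    rw [shn_zero]
    exact hz
  | κ + 1 => by
    rw [rsn_succ', ← shn_one_shn]
    exact rescale_mem u (shn_pos hS) (rsn_mem u hS hz κ)

/-- change of the ring -/
theorem map_geoR {R' : Type} [CommRing R'] (θ : R →+* R') (u : Rˣ) (a b : ℤ) (hb : 0 < b) :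
    PowerSeries.map θ (geoR u a b) = geoR (Units.map (θ : R →* R') u) a b := by
  have h1 := congrArg (PowerSeries.map θ) (geoR_mul u a b hb)
  have h2 := geoR_mul (Units.map (θ : R →* R') u) a b hb
  have h3 : θ ((u ^ a : Rˣ) : R) = (((Units.map (θ : R →* R') u) ^ a : R'ˣ) : R') := by
    rw [← map_zpow]
    rfl
  rw [map_mul, map_sub, map_one, map_mul, map_pow, PowerSeries.map_X, PowerSeries.map_C, h3] at h1
  set A := PowerSeries.map θ (geoR u a b)
  set B := geoR (Units.map (θ : R →* R') u) a b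
  set F := (1 - PowerSeries.C (((Units.map (θ : R →* R') u) ^ a : R'ˣ) : R') *
    PowerSeries.X ^ b.toNat : PowerSeries R')
  calc A = (F * B) * A := by rw [h2, one_mul]
    _ = (F * A) * B := by ring
    _ = B := by rw [h1, one_mul]

theorem map_mem {R' : Type} [CommRing R'] (θ : R →+* R') (u : Rˣ) {S : Set (ℤ × ℤ)}
    (hS : ∀ p ∈ S, 0 < p.2) {z : PowerSeries R} (hz : z ∈ rat u S) :
    PowerSeries.map θ z ∈ rat (Units.map (θ : R →* R') u) S := by
  unfold rat at hz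
  refine Algebra.adjoin_induction (p := fun z _ =>
    PowerSeries.map θ z ∈ rat (Units.map (θ : R →* R') u) S) ?_ ?_ ?_ ?_ hz
  · rintro x (hx | ⟨p, hp, rfl⟩)
    · rw [Set.mem_singleton_iff] at hx
      rw [hx, PowerSeries.map_X]
      exact X_mem _ _
    · rw [map_geoR θ u p.1 p.2 (hS p hp)]
      exact geoR_mem _ hp
  · intro r
    rw [PowerSeries.algebraMap_apply, Algebra.algebraMap_self, RingHom.id_apply,
      PowerSeries.map_C]
    exact C_mem _ _ _
  · intro x y _ _ hx hy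
    rw [map_add]
    exact (rat _ _).add_mem hx hy
  · intro x y _ _ hx hy
    rw [map_mul]
    exact (rat _ _).mul_mem hx hy

/-! ### Comaximal denominators -/

/-- the products of the `1 - u ^ a T ^ b`, `(a, b) ∈ T` -/
noncomputable def Mon (u : Rˣ) (T : Set (ℤ × ℤ)) : Submonoid (Polynomial R) :=
  Submonoid.closure {P | ∃ p ∈ T, P = fac u p}

theorem clear (u : Rˣ) {S T : Set (ℤ × ℤ)} (hT : ∀ p ∈ T, 0 < p.2) {z : PowerSeries R}
    (hz : z ∈ rat u (S ∪ T)) :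
    ∃ P ∈ Mon u T, (P : PowerSeries R) * z ∈ rat u S := by
  unfold rat at hz
  refine Algebra.adjoin_induction (p := fun z _ =>
    ∃ P ∈ Mon u T, (P : PowerSeries R) * z ∈ rat u S) ?_ ?_ ?_ ?_ hz
  · rintro x (hx | ⟨p, hp | hp, rfl⟩)
    · rw [Set.mem_singleton_iff] at hx
      refine ⟨1, one_mem _, ?_⟩
      rw [hx, Polynomial.coe_one, one_mul]
      exact X_mem _ _
    · refine ⟨1, one_mem _, ?_⟩
      rw [Polynomial.coe_one, one_mul]
      exact geoR_mem u hp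
    · refine ⟨fac u p, Submonoid.subset_closure ⟨p, hp, rfl⟩, ?_⟩
      rw [fac_mul u p (hT p hp)]
      exact one_mem _
  · intro r
    refine ⟨1, one_mem _, ?_⟩
    rw [Polynomial.coe_one, one_mul]
    exact (rat u S).algebraMap_mem r
  · rintro x y _ _ ⟨P, hP, hx⟩ ⟨Q, hQ, hy⟩
    refine ⟨P * Q, (Mon u T).mul_mem hP hQ, ?_⟩
    rw [Polynomial.coe_mul]
    have : (P : PowerSeries R) * (Q : PowerSeries R) * (x + y) =
        (Q : PowerSeries R) * ((P : PowerSeries R) * x) +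
          (P : PowerSeries R) * ((Q : PowerSeries R) * y) := by ring
    rw [this]
    exact (rat u S).add_mem ((rat u S).mul_mem (poly_mem _ _ _) hx)
      ((rat u S).mul_mem (poly_mem _ _ _) hy)
  · rintro x y _ _ ⟨P, hP, hx⟩ ⟨Q, hQ, hy⟩
    refine ⟨P * Q, (Mon u T).mul_mem hP hQ, ?_⟩
    rw [Polynomial.coe_mul]
    have : (P : PowerSeries R) * (Q : PowerSeries R) * (x * y) =
        ((P : PowerSeries R) * x) * ((Q : PowerSeries R) * y) := by ring
    rw [this]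
    exact (rat u S).mul_mem hx hy

theorem fac_dvd (u : Rˣ) (p : ℤ × ℤ) (m : ℕ) :
    fac u p ∣ 1 - Polynomial.C ((u ^ (p.1 * m) : Rˣ) : R) * Polynomial.X ^ (p.2.toNat * m) := by
  have h := sub_dvd_pow_sub_pow (1 : Polynomial R)
    (Polynomial.C ((u ^ p.1 : Rˣ) : R) * Polynomial.X ^ p.2.toNat) m
  rw [one_pow, mul_pow, ← map_pow, ← pow_mul, ← Units.val_pow_eq_pow_val, ← zpow_natCast,
    ← zpow_mul] at h
  exact h

/-- Two factors with different quotients `a / b` are comaximal if the `u ^ i - 1` are units. -/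
theorem coprime_fac (u : Rˣ) (hu : ∀ i : ℕ, 0 < i → IsUnit ((u : R) ^ i - 1)) (p q : ℤ × ℤ)
    (hp : 0 < p.2) (hq : 0 < q.2) (h : p.1 * q.2 ≠ q.1 * p.2) :
    IsCoprime (fac u p) (fac u q) := by
  obtain ⟨A, hA⟩ := fac_dvd u p q.2.toNat
  obtain ⟨B, hB⟩ := fac_dvd u q p.2.toNat
  have hp' : ((p.2.toNat : ℕ) : ℤ) = p.2 := Int.toNat_of_nonneg hp.le
  have hq' : ((q.2.toNat : ℕ) : ℤ) = q.2 := Int.toNat_of_nonneg hq.le
  rw [hq'] at hA
  rw [hp'] at hB
  rw [mul_comm q.2.toNat] at hB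
  -- the difference of the constants is a unit
  have key : ∀ a b : ℤ, a ≠ b → IsUnit (((u ^ a : Rˣ) : R) - ((u ^ b : Rˣ) : R)) := by
    have aux : ∀ a b : ℤ, a < b → IsUnit (((u ^ b : Rˣ) : R) - ((u ^ a : Rˣ) : R)) := by
      intro a b hab
      have h1 := hu (b - a).toNat (by omega)
      have h2 : (u : R) ^ (b - a).toNat = ((u ^ (b - a) : Rˣ) : R) := by
        rw [← Units.val_pow_eq_pow_val, ← zpow_natCast, Int.toNat_of_nonneg (by omega)]
      have h3 : ((u ^ b : Rˣ) : R) - ((u ^ a : Rˣ) : R) =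
          ((u ^ a : Rˣ) : R) * ((u : R) ^ (b - a).toNat - 1) := by
        rw [h2, mul_sub, mul_one, ← Units.val_mul, ← zpow_add]
        congr 3
        ring
      rw [h3]
      exact (Units.isUnit _).mul h1
    intro a b hab
    rcases lt_or_gt_of_ne hab with h1 | h1
    · have := (aux a b h1).neg
      rwa [neg_sub] at this
    · exact aux b a h1
  obtain ⟨w, hw⟩ := (key (q.1 * p.2) (p.1 * q.2) (fun h' => h h'.symm))
  refine ⟨Polynomial.C (((w⁻¹ : Rˣ) : R) * ((u ^ (q.1 * p.2) : Rˣ) : R)) * A,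
    - (Polynomial.C (((w⁻¹ : Rˣ) : R) * ((u ^ (p.1 * q.2) : Rˣ) : R)) * B), ?_⟩
  have hw1 : Polynomial.C ((w⁻¹ : Rˣ) : R) *
      (Polynomial.C ((u ^ (q.1 * p.2) : Rˣ) : R) - Polynomial.C ((u ^ (p.1 * q.2) : Rˣ) : R)) =
      1 := by
    rw [← map_sub, ← map_mul, ← hw, Units.inv_mul, map_one]
  rw [map_mul, map_mul]
  calc _ = Polynomial.C ((w⁻¹ : Rˣ) : R) * (Polynomial.C ((u ^ (q.1 * p.2) : Rˣ) : R) *
        (fac u p * A) - Polynomial.C ((u ^ (p.1 * q.2) : Rˣ) : R) * (fac u q * B)) := by ring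
    _ = Polynomial.C ((w⁻¹ : Rˣ) : R) * (Polynomial.C ((u ^ (q.1 * p.2) : Rˣ) : R) -
        Polynomial.C ((u ^ (p.1 * q.2) : Rˣ) : R)) := by
      rw [← hA, ← hB]
      ring
    _ = 1 := hw1

/-- **Elements with two comaximal denominators.** -/
theorem mem_of_two (u : Rˣ) (hu : ∀ i : ℕ, 0 < i → IsUnit ((u : R) ^ i - 1))
    {S T₁ T₂ : Set (ℤ × ℤ)} (h1 : ∀ p ∈ T₁, 0 < p.2) (h2 : ∀ p ∈ T₂, 0 < p.2)
    (h : ∀ p ∈ T₁, ∀ q ∈ T₂, p.1 * q.2 ≠ q.1 * p.2) {z : PowerSeries R}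
    (hz1 : z ∈ rat u (S ∪ T₁)) (hz2 : z ∈ rat u (S ∪ T₂)) : z ∈ rat u S := by
  obtain ⟨P, hP, hPz⟩ := clear u h1 hz1
  obtain ⟨Q, hQ, hQz⟩ := clear u h2 hz2
  have hcop : IsCoprime P Q := by
    have aux : ∀ p ∈ T₁, ∀ Q ∈ Mon u T₂, IsCoprime (fac u p) Q := by
      intro p hp Q hQ
      refine Submonoid.closure_induction (motive := fun Q _ => IsCoprime (fac u p) Q) ?_ ?_ ?_ hQ
      · rintro _ ⟨q, hq, rfl⟩
        exact coprime_fac u hu p q (h1 p hp) (h2 q hq) (h p hp q hq)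
      · exact isCoprime_one_right
      · intro x y _ _ hx hy
        exact hx.mul_right hy
    refine Submonoid.closure_induction (motive := fun P _ => IsCoprime P Q) ?_ ?_ ?_ hP
    · rintro _ ⟨p, hp, rfl⟩
      exact aux p hp Q hQ
    · exact isCoprime_one_left
    · intro x y _ _ hx hy
      exact hx.mul_left hy
  obtain ⟨A, B, hAB⟩ := hcop
  have e : z = (A : PowerSeries R) * ((P : PowerSeries R) * z) +
      (B : PowerSeries R) * ((Q : PowerSeries R) * z) := by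
    have h3 := congrArg (fun p : Polynomial R => (p : PowerSeries R)) hAB
    simp only [Polynomial.coe_add, Polynomial.coe_mul, Polynomial.coe_one] at h3
    linear_combination (-z) * h3
  rw [e]
  exact (rat u S).add_mem ((rat u S).mul_mem (poly_mem _ _ _) hPz)
    ((rat u S).mul_mem (poly_mem _ _ _) hQz)

end Pool.Agent.J6H85.CU
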