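import Pool.Agent.J6H85.CU.Rat

/-!
# The recursion for the zeta functions of `f + y_1 z_1 + ⋯ + y_j z_j`
-/

set_option autoImplicit false

namespace Pool.Agent.J6H85.CU

variable {R : Type} [CommRing R]

/-- The exact relations between the zeta functions `Z j` of `f + y_1 z_1 + ⋯ + y_j z_j` and the tail
functions `φ j`, `c` a constant. -/
structure Hom (u : Rˣ) (c : R) (Z φ : ℕ → PowerSeries R) : Prop where
  z : ∀ j, PowerSeries.rescale (u : R) (Z (j + 1)) * (1 - PowerSeries.X) =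
    PowerSeries.C (u : R) * Z j * (1 - PowerSeries.X) + PowerSeries.C c * φ j
  t : ∀ j, PowerSeries.rescale (u : R) (φ (j + 1)) * (1 - PowerSeries.X) =
    (PowerSeries.C (u : R) * PowerSeries.C (u : R) - PowerSeries.C (u : R) * PowerSeries.X) * φ j

/-- `1 - u⁻¹ T` -/
noncomputable def fst (u : Rˣ) : PowerSeries R :=
  1 - PowerSeries.C (((u⁻¹ : Rˣ) : R)) * PowerSeries.X

theorem fst_mem (u : Rˣ) (S : Set (ℤ × ℤ)) : fst u ∈ rat u S :=
  (rat u S).sub_mem (one_mem _) ((rat u S).mul_mem (C_mem _ _ _) (X_mem _ _))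

theorem fst_mul (u : Rˣ) : fst u * geoR u (-1) 1 = 1 := by
  have h := geoR_mul u (-1) 1 one_pos
  rw [show (1 : ℤ).toNat = 1 from rfl, zpow_neg_one, pow_one] at h
  exact h

theorem cancel_one_sub {A B : PowerSeries R}
    (h : (1 - PowerSeries.X) * A = (1 - PowerSeries.X) * B) : A = B := by
  have h1 : (PowerSeries.mk 1 : PowerSeries R) * (1 - PowerSeries.X) = 1 :=
    PowerSeries.mk_one_mul_one_sub_eq_one R
  calc A = (PowerSeries.mk 1 * (1 - PowerSeries.X)) * A := by rw [h1, one_mul]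
    _ = PowerSeries.mk 1 * ((1 - PowerSeries.X) * A) := by ring
    _ = PowerSeries.mk 1 * ((1 - PowerSeries.X) * B) := by rw [h]
    _ = (PowerSeries.mk 1 * (1 - PowerSeries.X)) * B := by ring
    _ = B := by rw [h1, one_mul]

/-- **The elimination of the tails.** -/
theorem Hom.elim {u : Rˣ} {c : R} {Z φ : ℕ → PowerSeries R} (h : Hom u c Z φ) (j : ℕ) :
    fst u * Z j = PowerSeries.C (((u⁻¹ : Rˣ) : R) ^ 3) *
      ((PowerSeries.C (u : R) * PowerSeries.C (u : R) + PowerSeries.C (u : R)) *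
        PowerSeries.rescale (u : R) (fst u * Z (j + 1)) -
        PowerSeries.rescale (u : R) (PowerSeries.rescale (u : R) (fst u * Z (j + 2)))) := by
  have hC : PowerSeries.C (u : R) * PowerSeries.C ((u⁻¹ : Rˣ) : R) = (1 : PowerSeries R) := by
    rw [← map_mul, Units.mul_inv, map_one]
  have hC3 : PowerSeries.C (((u⁻¹ : Rˣ) : R) ^ 3) =
      (PowerSeries.C ((u⁻¹ : Rˣ) : R) : PowerSeries R) ^ 3 := map_pow _ _ _
  have h0 := h.z j
  have h1 := h.z (j + 1)
  have h2 := h.t j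
  unfold fst
  set l : PowerSeries R := PowerSeries.C (u : R) with hl
  set y : PowerSeries R := PowerSeries.C ((u⁻¹ : Rˣ) : R) with hy
  set x : PowerSeries R := PowerSeries.X with hx
  set rs := PowerSeries.rescale (u : R) with hrs
  have rx : rs x = l * x := rescale_X' _
  have ry : rs y = y := rescale_C' _ _
  have rl : rs l = l := rescale_C' _ _
  have rc : rs (PowerSeries.C c) = PowerSeries.C c := rescale_C' _ _
  have e1 : ∀ W : PowerSeries R, rs ((1 - y * x) * W) = (1 - x) * rs W := by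
    intro W
    rw [map_mul, map_sub, map_one, map_mul, ry, rx]
    linear_combination (-(x * rs W)) * hC
  have e2 : rs (rs ((1 - y * x) * Z (j + 2))) = (1 - l * x) * rs (rs (Z (j + 2))) := by
    rw [e1, map_mul, map_sub, map_one, rx]
  have e4 : rs (rs (Z (j + 2))) * (1 - l * x) =
      l * rs (Z (j + 1)) * (1 - l * x) + PowerSeries.C c * rs (φ (j + 1)) := by
    have := congrArg rs h1
    rw [map_mul, map_sub, map_one, map_add, map_mul, map_mul, map_sub, map_one, map_mul, rx, rl,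
      rc] at this
    exact this
  rw [e1, e2, hC3]
  refine cancel_one_sub ?_
  rw [← hx]
  have hy3 : y ^ 3 * l ^ 3 = 1 := by rw [← mul_pow, mul_comm y l, hC, one_pow]
  have hy2 : y ^ 3 * l ^ 2 = y := by
    calc y ^ 3 * l ^ 2 = y * (l * y) ^ 2 := by ring
      _ = y := by rw [hC, one_pow, mul_one]
  linear_combination y ^ 3 * (1 - x) * e4 + y ^ 3 * PowerSeries.C c * h2 -
    y ^ 3 * (l * l - l * x) * h0 - (1 - x) * Z j * hy3 + (1 - x) * Z j * x * hy2

/-- `(1 - u⁻¹ T) Z_j` after the substitution `T ↦ u ^ j T` -/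
noncomputable def V (u : Rˣ) (Z : ℕ → PowerSeries R) (j : ℕ) : PowerSeries R :=
  rsn u j (fst u * Z j)

theorem rsn_add (u : Rˣ) (j : ℕ) (a b : PowerSeries R) :
    rsn u j (a + b) = rsn u j a + rsn u j b := by
  induction j generalizing a b with
  | zero => rfl
  | succ j ih => rw [rsn_succ, rsn_succ, rsn_succ, map_add, ih]

theorem rsn_sub (u : Rˣ) (j : ℕ) (a b : PowerSeries R) :
    rsn u j (a - b) = rsn u j a - rsn u j b := by
  induction j generalizing a b with
  | zero => rfl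
  | succ j ih => rw [rsn_succ, rsn_succ, rsn_succ, map_sub, ih]

theorem rsn_mul (u : Rˣ) (j : ℕ) (a b : PowerSeries R) :
    rsn u j (a * b) = rsn u j a * rsn u j b := by
  induction j generalizing a b with
  | zero => rfl
  | succ j ih => rw [rsn_succ, rsn_succ, rsn_succ, map_mul, ih]

theorem rsn_C (u : Rˣ) (j : ℕ) (a : R) :
    rsn u j (PowerSeries.C a) = PowerSeries.C a := by
  induction j with
  | zero => rfl
  | succ j ih => rw [rsn_succ, rescale_C', ih]

/-- **The recursion.** -/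
theorem Hom.recur {u : Rˣ} {c : R} {Z φ : ℕ → PowerSeries R} (h : Hom u c Z φ) (j : ℕ) :
    V u Z j = PowerSeries.C (((u⁻¹ : Rˣ) : R) ^ 3) *
      ((PowerSeries.C (u : R) * PowerSeries.C (u : R) + PowerSeries.C (u : R)) * V u Z (j + 1) -
        V u Z (j + 2)) := by
  unfold V
  rw [h.elim j, rsn_mul, rsn_sub, rsn_mul, rsn_add, rsn_mul, rsn_C, rsn_C, ← rsn_succ,
    ← rsn_succ, ← rsn_succ]

theorem Hom.descend {u : Rˣ} {c : R} {Z φ : ℕ → PowerSeries R} (h : Hom u c Z φ)
    (A : Subalgebra R (PowerSeries R)) : ∀ j : ℕ, V u Z j ∈ A → V u Z (j + 1) ∈ A → V u Z 0 ∈ A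
  | 0, h0, _ => h0
  | j + 1, h0, h1 => by
    refine Hom.descend h A j ?_ h0
    have hC : ∀ a : R, PowerSeries.C a ∈ A := fun a => by
      have := A.algebraMap_mem a
      rwa [PowerSeries.algebraMap_apply, Algebra.algebraMap_self, RingHom.id_apply] at this
    rw [h.recur j]
    exact A.mul_mem (hC _) (A.sub_mem (A.mul_mem (A.add_mem (A.mul_mem (hC _) (hC _)) (hC _)) h0)
      h1)

/-- The zeta functions `Z' j` differ from the `Z j` by a polynomial divided by `1 - u⁻¹ T`. -/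
def Near (u : Rˣ) (Z Z' : ℕ → PowerSeries R) : Prop :=
  ∀ j, ∃ P : Polynomial R, fst u * (Z j - Z' j) = (P : PowerSeries R)

/-- membership of `V j` -/
theorem V_mem {u : Rˣ} {Z Z' : ℕ → PowerSeries R} (hn : Near u Z Z') {S : Set (ℤ × ℤ)}
    (hS : ∀ p ∈ S, 0 < p.2) {j : ℕ} (hz : fst u * Z' j ∈ rat u S) :
    V u Z j ∈ rat u (shn j S) := by
  obtain ⟨P, hP⟩ := hn j
  have e : fst u * Z j = fst u * Z' j + (P : PowerSeries R) := by
    rw [← hP]
    ring
  unfold V
  rw [e]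
  exact rsn_mem u hS ((rat u S).add_mem hz (poly_mem _ _ _)) j

/-- **Descent over the ring `R` itself**, for the products with `1 - u⁻¹ T`. -/
theorem descend_fst {u : Rˣ} {c : R} {Z Z' φ : ℕ → PowerSeries R} (h : Hom u c Z φ)
    (hn : Near u Z Z') (h0 : Z 0 = Z' 0) {S1 S2 : Set (ℤ × ℤ)} (hS1 : ∀ p ∈ S1, 0 < p.2)
    (hS2 : ∀ p ∈ S2, 0 < p.2) (κ : ℕ) (hz1 : fst u * Z' κ ∈ rat u S1)
    (hz2 : fst u * Z' (κ + 1) ∈ rat u S2) :
    fst u * Z' 0 ∈ rat u (shn κ S1 ∪ shn (κ + 1) S2) := by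
  have h1 := V_mem hn hS1 hz1
  have h2 := V_mem hn hS2 hz2
  have h3 := h.descend (rat u (shn κ S1 ∪ shn (κ + 1) S2)) κ
    (rat_mono u Set.subset_union_left h1) (rat_mono u Set.subset_union_right h2)
  unfold V at h3
  rw [rsn_zero, h0] at h3
  exact h3

/-- the pairs `(a, b)` with `a / b = κ - 1` -/
def ext (κ : ℕ) : Set (ℤ × ℤ) := {p | 0 < p.2 ∧ p.1 = ((κ : ℤ) - 1) * p.2}

/-- **Descent over a ring in which the `u ^ i - 1` are units.** -/
theorem descend_loc {u : Rˣ} (hu : ∀ i : ℕ, 0 < i → IsUnit ((u : R) ^ i - 1)) {c : R}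
    {Z Z' φ : ℕ → PowerSeries R} (h : Hom u c Z φ) (hn : Near u Z Z') (h0 : Z 0 = Z' 0)
    (S : Set (ℤ × ℤ)) (k : ℕ) (hz : ∀ i : ℕ, i < 4 → ∃ S' : Set (ℤ × ℤ), (∀ p ∈ S', 0 < p.2) ∧
      shn (k + i) S' ⊆ S ∪ ext (k + i) ∧ Z' (k + i) ∈ rat u S') : fst u * Z' 0 ∈ rat u S := by
  have key : ∀ i : ℕ, i < 4 → V u Z (k + i) ∈ rat u (S ∪ ext (k + i)) := by
    intro i h4
    obtain ⟨S', hS', hsub, hm⟩ := hz i h4
    exact rat_mono u hsub (V_mem hn hS' ((rat u S').mul_mem (fst_mem _ _) hm))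
  have e0 : V u Z 0 = fst u * Z' 0 := by
    unfold V
    rw [rsn_zero, h0]
  rw [← e0]
  have m1 : V u Z 0 ∈ rat u (S ∪ (ext (k + 0) ∪ ext (k + 1))) := by
    refine h.descend _ k (rat_mono u ?_ (key 0 (by norm_num)))
      (rat_mono u ?_ (key 1 (by norm_num)))
    · exact Set.union_subset_union_right _ Set.subset_union_left
    · exact Set.union_subset_union_right _ Set.subset_union_right
  have m2 : V u Z 0 ∈ rat u (S ∪ (ext (k + 2) ∪ ext (k + 3))) := by
    refine h.descend _ (k + 2) (rat_mono u ?_ (key 2 (by norm_num)))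
      (rat_mono u ?_ (key 3 (by norm_num)))
    · exact Set.union_subset_union_right _ Set.subset_union_left
    · exact Set.union_subset_union_right _ Set.subset_union_right
  refine mem_of_two u hu ?_ ?_ ?_ m1 m2
  · rintro p (hp | hp)
    · exact hp.1
    · exact hp.1
  · rintro p (hp | hp)
    · exact hp.1
    · exact hp.1
  · have aux : ∀ (i j : ℕ), i ≠ j → ∀ p ∈ ext (k + i), ∀ q ∈ ext (k + j),
        p.1 * q.2 ≠ q.1 * p.2 := by
      rintro i j hij p ⟨hp, hp'⟩ q ⟨hq, hq'⟩ heq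
      rw [hp', hq'] at heq
      push_cast at heq
      have h5 : (((i : ℤ) - j) * (p.2 * q.2)) = 0 := by linear_combination heq
      rcases mul_eq_zero.1 h5 with h6 | h6
      · apply hij
        omega
      · rcases mul_eq_zero.1 h6 with h7 | h7
        · omega
        · omega
    rintro p (hp | hp) q (hq | hq)
    · exact aux 0 2 (by norm_num) p hp q hq
    · exact aux 0 3 (by norm_num) p hp q hq
    · exact aux 1 2 (by norm_num) p hp q hq
    · exact aux 1 3 (by norm_num) p hp q hq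

theorem of_fst {u : Rˣ} {S : Set (ℤ × ℤ)} {z : PowerSeries R} (h : fst u * z ∈ rat u S)
    (h1 : ((-1, 1) : ℤ × ℤ) ∈ S) : z ∈ rat u S := by
  have e : z = geoR u (-1) 1 * (fst u * z) := by
    linear_combination (-z) * fst_mul u
  have h2 : geoR u (-1) 1 ∈ rat u S := geoR_mem u (p := ((-1, 1) : ℤ × ℤ)) h1
  rw [e]
  exact (rat u S).mul_mem h2 h

end Pool.Agent.J6H85.CU
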