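import Pool.Agent.J6H85.CU.Loc

/-!
# The sequences of the zeta functions of `f + y_1 z_1 + ⋯ + y_j z_j`
-/

set_option autoImplicit false

namespace Pool.Agent.J6H85.CU

open MvPolynomial Pool.Agent.W428.MOT
open Pool.Agent.W375.MG (JetG Good zetaG)
open Pool.Agent.Y229.MS (addyz Wyz CE Tl zs phiS psum rel1 rel2 psum_mul constr_Wyz phi_succ chi_pt
  ce_zero TaskONE TaskTWO itr Witr constr_Witr ce_good)
open Pool.Agent.N101.CB (Wo constr_Wo chi_Tl)

section
variable {K : Type} [Field K] {n : ℕ} {R : Type} [CommRing R]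

/-- the origins `W × 0` -/
def Wz (W : Set (Pt K (Fin n))) : (j : ℕ) → Set (Pt K (Fin (n + 2 * j)))
  | 0 => W
  | j + 1 => Wo (Wz W j)

theorem constr_Wz {W : Set (Pt K (Fin n))} (hW : Constr W) : ∀ j : ℕ, Constr (Wz W j)
  | 0 => hW
  | j + 1 => constr_Wo (constr_Wz hW j)

theorem zero_Wz (f : MvPolynomial (Fin n) K) {W : Set (Pt K (Fin n))}
    (h0 : ∀ z ∈ W, aeval z f = 0) : ∀ j : ℕ, ∀ z ∈ Wz W j, aeval z (itr f j) = 0
  | 0 => h0
  | j + 1 => zero_Wo (itr f j) (zero_Wz f h0 j)

theorem chi_Wz (M : Meas K R) {W : Set (Pt K (Fin n))} (hW : Constr W) :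
    ∀ j : ℕ, M.χ _ (Wz W j) = M.χ _ W
  | 0 => rfl
  | j + 1 => (chi_Wo M (constr_Wz hW j)).trans (chi_Wz M hW j)

/-- the number of the origins with `∑ y_i z_i = a ≠ 0` -/
def pc (L : R) : ℕ → R
  | 0 => 0
  | j + 1 => L * pc L j + (L - 1) * L ^ (2 * j)

/-- the number of the origins with `∑ y_i z_i = 0`, without the point `0` -/
def qc (L : R) : ℕ → R
  | 0 => 0
  | j + 1 => (L - 1) * L ^ (2 * j) + L * qc L j + (L - 1)

/-- the zeta function of the origins `W × (𝔸 ^ (2 j) - 0)` -/
noncomputable def aC (u : Rˣ) (w e : R) (j : ℕ) : PowerSeries R :=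
  PowerSeries.C (w * e) * (PowerSeries.C (pc (u : R) j) +
    PowerSeries.C (qc (u : R) j * ((u⁻¹ : Rˣ) : R)) * (PowerSeries.X * geoR u (-1) 1))

/-- the tails for the origins `W × (𝔸 ^ (2 j) - 0)` -/
noncomputable def bC (u : Rˣ) (w : R) (j : ℕ) : PowerSeries R :=
  PowerSeries.C w * (PowerSeries.C ((u : R) ^ (2 * j) - 1) +
    PowerSeries.C (qc (u : R) j) * (PowerSeries.X * geoR u (-1) 1))

theorem rescale_form (L a b c : R) (g : PowerSeries R) :
    PowerSeries.rescale L (PowerSeries.C a * (PowerSeries.C b + PowerSeries.C c *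
      (PowerSeries.X * g))) = PowerSeries.C a * (PowerSeries.C b + PowerSeries.C c *
      (PowerSeries.C L * PowerSeries.X * PowerSeries.rescale L g)) := by
  rw [map_mul (PowerSeries.rescale L), map_add (PowerSeries.rescale L), rescale_C', rescale_C',
    map_mul (PowerSeries.rescale L), rescale_C', map_mul (PowerSeries.rescale L), rescale_X']

theorem aC_zero (u : Rˣ) (w e : R) : aC u w e 0 = 0 := by
  unfold aC pc qc
  rw [zero_mul, map_zero, zero_mul, add_zero, mul_zero]

theorem fst_aC (u : Rˣ) (w e : R) (j : ℕ) : ∃ P : Polynomial R,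
    fst u * aC u w e j = (P : PowerSeries R) := by
  refine ⟨Polynomial.C (w * e) * (Polynomial.C (pc (u : R) j) *
    (1 - Polynomial.C ((u⁻¹ : Rˣ) : R) * Polynomial.X) +
    Polynomial.C (qc (u : R) j * ((u⁻¹ : Rˣ) : R)) * Polynomial.X), ?_⟩
  simp only [Polynomial.coe_mul, Polynomial.coe_add, Polynomial.coe_sub, Polynomial.coe_C,
    Polynomial.coe_X, Polynomial.coe_one]
  have h := fst_mul u
  unfold aC
  have e1 : (1 - PowerSeries.C ((u⁻¹ : Rˣ) : R) * PowerSeries.X : PowerSeries R) = fst u := rfl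
  rw [e1]
  linear_combination (PowerSeries.C (w * e) * (PowerSeries.C (qc (u : R) j * ((u⁻¹ : Rˣ) : R)) *
    PowerSeries.X)) * h

theorem hom_loc (h1 : TaskONE) (h2 : TaskTWO) (M : Meas K R) (u : Rˣ) (hu : M.L = (u : R))
    (f : MvPolynomial (Fin n) K) {W : Set (Pt K (Fin n))} (hW : Constr W)
    (h0 : ∀ z ∈ W, aeval z f = 0) {E : Set (AlgebraicClosure K)} (hE : Good E) :
    Hom u (M.χ (Fin 1) {a | a 0 ∈ E} * ((u : R) - 1))
      (fun j => zs M ((u⁻¹ : Rˣ) : R) (itr f j) (Wz W j) E +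
        aC u (M.χ _ W) (M.χ (Fin 1) {a | a 0 ∈ E}) j)
      (fun j => phiS M ((u⁻¹ : Rˣ) : R) (itr f j) (Wz W j) + bC u (M.χ _ W) j) := by
  set Y : R := ((u⁻¹ : Rˣ) : R) with hY
  set e : R := M.χ (Fin 1) {a | a 0 ∈ E} with he
  set w : R := M.χ _ W with hw
  have hLY : PowerSeries.C (u : R) * PowerSeries.C Y = (1 : PowerSeries R) := by
    rw [← map_mul, hY, Units.mul_inv, map_one]
  have hg := rescale_geo' u
  have hg1 := fst_mul u
  unfold fst at hg1
  rw [← hY] at hg1
  constructor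
  · intro j
    have r := loc1 h1 h2 M u hu (itr f j) (constr_Wz hW j) (zero_Wz f h0 j) hE
    rw [chi_Wz M hW j, ← hY, ← he, ← hw] at r
    have ea : PowerSeries.rescale (u : R) (aC u w e (j + 1)) =
        PowerSeries.C (w * e) * (PowerSeries.C (pc (u : R) (j + 1)) +
          PowerSeries.C (qc (u : R) (j + 1) * Y) * (PowerSeries.C (u : R) * PowerSeries.X *
            PowerSeries.rescale (u : R) (geoR u (-1) 1))) := by
      unfold aC
      rw [rescale_form]
    show PowerSeries.rescale (u : R) (zs M Y (addyz (itr f j)) (Wo (Wz W j)) E +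
      aC u w e (j + 1)) * (1 - PowerSeries.X) =
      PowerSeries.C (u : R) * (zs M Y (itr f j) (Wz W j) E + aC u w e j) * (1 - PowerSeries.X) +
        PowerSeries.C (e * ((u : R) - 1)) * (phiS M Y (itr f j) (Wz W j) + bC u w j)
    rw [map_add, ea]
    unfold aC bC
    simp only [pc, qc]
    rw [← hY]
    simp only [map_mul, map_add, map_sub, map_pow, map_one] at r ⊢
    set x : PowerSeries R := PowerSeries.X
    set l : PowerSeries R := PowerSeries.C (u : R)
    set y : PowerSeries R := PowerSeries.C Y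
    set g : PowerSeries R := geoR u (-1) 1
    set G : PowerSeries R := PowerSeries.rescale (u : R) g
    set A : PowerSeries R := PowerSeries.C w
    set B : PowerSeries R := PowerSeries.C e
    set p : PowerSeries R := PowerSeries.C (pc (u : R) j)
    set q : PowerSeries R := PowerSeries.C (qc (u : R) j)
    linear_combination r + A * B * ((l - 1) * l ^ (2 * j) + l * q + (l - 1)) * (l * y) * x * hg +
      A * B * ((l - 1) * l ^ (2 * j) + l * q + (l - 1)) * x * hLY -
      A * B * q * l * x * hg1 - A * B * q * x * g * (1 - x) * hLY -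
      A * B * q * x * g * x * hLY
  · intro j
    have r := loc2 h1 h2 M u hu (itr f j) (constr_Wz hW j) (zero_Wz f h0 j)
    rw [chi_Wz M hW j, ← hY, ← hw] at r
    have ea : PowerSeries.rescale (u : R) (bC u w (j + 1)) =
        PowerSeries.C w * (PowerSeries.C ((u : R) ^ (2 * (j + 1)) - 1) +
          PowerSeries.C (qc (u : R) (j + 1)) * (PowerSeries.C (u : R) * PowerSeries.X *
            PowerSeries.rescale (u : R) (geoR u (-1) 1))) := by
      unfold bC
      rw [rescale_form]
    show PowerSeries.rescale (u : R) (phiS M Y (addyz (itr f j)) (Wo (Wz W j)) +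
      bC u w (j + 1)) * (1 - PowerSeries.X) =
      (PowerSeries.C (u : R) * PowerSeries.C (u : R) - PowerSeries.C (u : R) * PowerSeries.X) *
        (phiS M Y (itr f j) (Wz W j) + bC u w j)
    rw [map_add, ea]
    unfold bC
    simp only [qc]
    simp only [map_mul, map_add, map_sub, map_pow, map_one, map_ofNat] at r ⊢
    set x : PowerSeries R := PowerSeries.X
    set l : PowerSeries R := PowerSeries.C (u : R)
    set y : PowerSeries R := PowerSeries.C Y
    set g : PowerSeries R := geoR u (-1) 1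
    set G : PowerSeries R := PowerSeries.rescale (u : R) g
    set A : PowerSeries R := PowerSeries.C w
    set q : PowerSeries R := PowerSeries.C (qc (u : R) j)
    linear_combination r + A * ((l - 1) * l ^ (2 * j) + l * q + (l - 1)) * l * x * hg -
      A * q * l ^ 2 * x * hg1 - A * q * l * x * x * g * hLY

theorem near_loc (M : Meas K R) (u : Rˣ) (f : MvPolynomial (Fin n) K) (W : Set (Pt K (Fin n)))
    (E : Set (AlgebraicClosure K)) :
    Near u (fun j => zs M ((u⁻¹ : Rˣ) : R) (itr f j) (Wz W j) E +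
        aC u (M.χ _ W) (M.χ (Fin 1) {a | a 0 ∈ E}) j)
      (fun j => zs M ((u⁻¹ : Rˣ) : R) (itr f j) (Wz W j) E) := by
  intro j
  obtain ⟨P, hP⟩ := fst_aC u (M.χ _ W) (M.χ (Fin 1) {a | a 0 ∈ E}) j
  refine ⟨P, ?_⟩
  rw [← hP]
  ring

theorem hom_cyl (h1 : TaskONE) (h2 : TaskTWO) (M : Meas K R) (u : Rˣ) (hu : M.L = (u : R))
    (f : MvPolynomial (Fin n) K) {W : Set (Pt K (Fin n))} (hW : Constr W)
    {E : Set (AlgebraicClosure K)} (hE : CE E) :
    Hom u (M.χ (Fin 1) {a | a 0 ∈ E} * ((u : R) - 1))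
      (fun j => zs M ((u⁻¹ : Rˣ) : R) (itr f j) (Witr W j) E)
      (fun j => phiS M ((u⁻¹ : Rˣ) : R) (itr f j) (Witr W j)) := by
  have hL : M.L * ((u⁻¹ : Rˣ) : R) = 1 := by rw [hu, Units.mul_inv]
  constructor
  · intro j
    have r := rel1 h1 h2 M _ hL (itr f j) (constr_Witr hW j) hE
    have hps := psum_mul (phiS M ((u⁻¹ : Rˣ) : R) (itr f j) (Witr W j))
    rw [hu] at r
    show PowerSeries.rescale (u : R) (zs M _ (addyz (itr f j)) (Wyz (Witr W j)) E) *
      (1 - PowerSeries.X) = _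
    rw [r]
    linear_combination (PowerSeries.C (M.χ (Fin 1) {a | a 0 ∈ E} * ((u : R) - 1))) * hps
  · intro j
    have r := rel2 h1 h2 M _ hL (itr f j) (constr_Witr hW j)
    have hps := psum_mul (phiS M ((u⁻¹ : Rˣ) : R) (itr f j) (Witr W j))
    rw [hu] at r
    show PowerSeries.rescale (u : R) (phiS M _ (addyz (itr f j)) (Wyz (Witr W j))) *
      (1 - PowerSeries.X) = _
    rw [r, map_mul, map_sub, map_one]
    linear_combination (PowerSeries.C (u : R) * (PowerSeries.C (u : R) - 1) *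
      PowerSeries.X) * hps

end

end Pool.Agent.J6H85.CU
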